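import Pool.Agent.H568.LP.Defs
import Pool.Agent.W920.FD.T_BF

set_option autoImplicit false

/-! # A feasible system has a solution close to the ladder -/

namespace Pool.Agent.H568.LP

open Pool.Agent.NPC Pool.Agent.H558R2 Pool.Agent.H622R3.SM Pool.Agent.W920.FD
open Pool.Agent.W920.FC hiding Good2 Good3 Inv2 InvX LadG SolB T1 T3 T4 Wt alg bisQs cmpQs finish lad0 perQs round sortQs stage vr

/-- If all minors are small forms, a feasible system has a solution close to the ladder. -/
theorem BF2 (hcert : S_CERT) (N h m n : ℕ) (A : Matrix (Fin m) (Fin n) ℝ) (b : Fin m → ℝ)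
    (W : ℕ → ℝ) (Lad : List (List ℤ × List ℤ)) (c : ℝ) (hc : 0 < c)
    (hminor : ∀ β : Fin m → Option (Fin (m + (n + n))),
      (∀ i j, β i = none → β j = none → i = j) →
      ∃ y : ℕ → ℤ, ∑ l ∈ Finset.range N, (y l).natAbs ≤ 2 ^ h ∧
        c * dd (wmat A b) β = ∑ l ∈ Finset.range N, (y l : ℝ) * W l)
    (hlad : LadG N h W Lad) (hfeas : ∃ z : Fin n → ℝ, b ≤ A.mulVec z) :
    ∃ z : ℕ → ℝ, SolB N m n (start A b) W Lad z := by
  classical
  obtain ⟨x0, hx0⟩ := hfeas
  obtain ⟨β, hd, hnn⟩ := hcert m n (A, b) ⟨x0, fun i => hx0 i⟩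
  simp only at hd hnn
  set w := wmat A b with hw
  set d := dd w (fun j => some (β j)) with hdd
  set e : Fin m → ℝ := fun j => dd w (Function.update (fun j => some (β j)) j none) with he
  have hinj : Function.Injective β := by
    intro i j hij
    by_contra hne
    exact hd (dd_eq_zero w _ hne (by simp [hij]))
  have hq : ∀ j, 0 ≤ e j / d := by
    intro j
    have : e j / d = e j * d / (d * d) := by field_simp
    rw [this]
    exact div_nonneg (hnn j) (mul_self_nonneg d)
  refine ⟨fun t => if t = m + (n + n) then 1 else ∑ j, if (β j : ℕ) = t then e j / d else 0,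
    ?_, ?_, ?_, ?_⟩
  · intro t _
    show 0 ≤ if t = m + (n + n) then (1 : ℝ) else ∑ j, if (β j : ℕ) = t then e j / d else 0
    split_ifs
    · exact zero_le_one
    · refine Finset.sum_nonneg fun j _ => ?_
      split_ifs
      · exact hq j
      · exact le_rfl
  · simp
  · intro i hi
    have hK : cK m n = m + (n + n) + 1 := rfl
    rw [hK, Finset.sum_range_succ]
    beta_reduce
    rw [if_pos rfl, mul_one]
    have hl : Rv m n (start A b) i (m + (n + n)) = b ⟨i, hi⟩ := by
      unfold Rv
      rw [if_neg (by omega), if_neg (by omega), if_neg (by omega)]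
      simp [start, hi]
    rw [hl]
    have h1 : ∑ t ∈ Finset.range (m + (n + n)), Rv m n (start A b) i t *
        (if t = m + (n + n) then 1 else ∑ j, if (β j : ℕ) = t then e j / d else 0) =
        ∑ j, e j / d * w ⟨i, hi⟩ (some (β j)) := by
      have h2 : ∀ t ∈ Finset.range (m + (n + n)), Rv m n (start A b) i t *
        (if t = m + (n + n) then 1 else ∑ j, if (β j : ℕ) = t then e j / d else 0) =
        ∑ j, if (β j : ℕ) = t then Rv m n (start A b) i t * (e j / d) else 0 := by
        intro t ht
        rw [if_neg (Finset.mem_range.1 ht).ne, Finset.mul_sum]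
        refine Finset.sum_congr rfl fun j _ => ?_
        split_ifs <;> simp
      rw [Finset.sum_congr rfl h2, Finset.sum_comm]
      refine Finset.sum_congr rfl fun j _ => ?_
      rw [Finset.sum_ite_eq, if_pos (Finset.mem_range.2 (β j).2), TBF.Rv_eq A b ⟨i, hi⟩ (β j),
        mul_comm]
    rw [h1]
    have h3 := sum_dd w (fun j => some (β j)) none ⟨i, hi⟩
    have h4 : w ⟨i, hi⟩ none = - b ⟨i, hi⟩ := rfl
    rw [h4, ← hdd] at h3
    have h5 : ∑ j, e j / d * w ⟨i, hi⟩ (some (β j)) = (d * -b ⟨i, hi⟩) / d := by
      rw [h3, Finset.sum_div]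
      refine Finset.sum_congr rfl fun j _ => ?_
      simp only [he]
      ring
    rw [h5, mul_div_cancel_left₀ _ hd]
    ring
  · intro t ht
    show (if t = m + (n + n) then (1 : ℝ) else ∑ j, if (β j : ℕ) = t then e j / d else 0) = 0 ∨
      ∃ u ∈ Lad, rt N W u / 2 <
        (if t = m + (n + n) then (1 : ℝ) else ∑ j, if (β j : ℕ) = t then e j / d else 0) ∧
        (if t = m + (n + n) then (1 : ℝ) else ∑ j, if (β j : ℕ) = t then e j / d else 0) ≤
        rt N W u
    rw [if_neg ht.ne]
    by_cases hex : ∃ l, (β l : ℕ) = t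
    · obtain ⟨l, hl⟩ := hex
      have hs : (∑ j, if (β j : ℕ) = t then e j / d else 0) = e l / d := by
        rw [Finset.sum_eq_single l]
        · rw [if_pos hl]
        · intro j _ hj
          rw [if_neg]
          intro h
          exact hj (hinj (Fin.ext (h.trans hl.symm)))
        · intro h
          exact absurd (Finset.mem_univ _) h
      rw [hs]
      by_cases h0 : e l = 0
      · left
        rw [h0, zero_div]
      right
      obtain ⟨y, hy1, hy2⟩ := hminor
        (Function.update (fun j => some (β j)) l none) (by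
          intro i j hi hj
          have h : ∀ i, Function.update (fun j => some (β j)) l none i = none → i = l := by
            intro i hi
            by_contra hne
            rw [Function.update_of_ne hne] at hi
            exact absurd hi (by simp)
          rw [h i hi, h j hj])
      obtain ⟨y', hy1', hy2'⟩ := hminor (fun j => some (β j)) (by
        intro i j hi
        exact absurd hi (by simp))
      have hy3 : c * e l =
          ∑ l ∈ Finset.range N, (y l : ℝ) * W l := hy2
      have hy3' : c * d =
          ∑ l ∈ Finset.range N, (y' l : ℝ) * W l := hy2'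
      obtain ⟨u, hu, hu1, hu2⟩ := hlad y y' hy1 hy1'
        (by rw [← hy3]; exact mul_ne_zero hc.ne' h0)
        (by rw [← hy3']; exact mul_ne_zero hc.ne' hd)
      rw [← hy3, ← hy3', ← abs_div, mul_div_mul_left _ _ hc.ne', abs_of_nonneg (hq l)] at hu1 hu2
      exact ⟨u, hu, hu1, hu2⟩
    · left
      refine Finset.sum_eq_zero fun j _ => ?_
      rw [if_neg]
      intro h
      exact hex ⟨j, h⟩

end Pool.Agent.H568.LP
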