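import Pool.Agent.H568.LP.Defs

set_option autoImplicit false

/-! # The class contains the matrices whose entries are small combinations of few reals -/

namespace Pool.Agent.H568.LP

open Matrix

/-- Cramer's rule for the rows of an integer matrix with few columns: all rows are combinations of
at most `k` of them, with a common denominator and coefficients that are small. -/
theorem rows_span {I : Type*} {k B : ℕ} (V : I → Fin k → ℤ) (hV : ∀ p t, |V p t| ≤ 2 ^ B) :
    ∃ (ρ : ℕ) (rows : Fin ρ → I) (D : ℤ) (c : I → Fin ρ → ℤ), ρ ≤ k ∧ D ≠ 0 ∧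
      |D| ≤ k.factorial * 2 ^ (B * k) ∧ (∀ p q, |c p q| ≤ k.factorial * 2 ^ (B * k)) ∧
      ∀ p t, D * V p t = ∑ q, c p q * V (rows q) t := by
  classical
  -- the largest order of a nonvanishing minor
  have hex : ∃ ρ, (ρ ≤ k ∧ ∃ (rows : Fin ρ → I) (cols : Fin ρ → Fin k),
      (Matrix.of fun i j => V (rows i) (cols j)).det ≠ 0) ∧
      ¬ ∃ (rows : Fin (ρ + 1) → I) (cols : Fin (ρ + 1) → Fin k),
      (Matrix.of fun i j => V (rows i) (cols j)).det ≠ 0 := by
    by_contra hcon
    push Not at hcon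
    have h : ∀ ρ, ρ ≤ k + 1 → ∃ (rows : Fin ρ → I) (cols : Fin ρ → Fin k),
        (Matrix.of fun i j => V (rows i) (cols j)).det ≠ 0 := by
      intro ρ
      induction ρ with
      | zero =>
        intro _
        exact ⟨Fin.elim0, Fin.elim0, by simp⟩
      | succ ρ ih =>
        intro hρ
        obtain ⟨rows, cols, h⟩ := ih (by omega)
        exact hcon ρ ⟨by omega, rows, cols, h⟩
    obtain ⟨rows, cols, hdet⟩ := h (k + 1) le_rfl
    -- two columns agree
    obtain ⟨i, j, hij, hc⟩ := Fintype.exists_ne_map_eq_of_card_lt cols (by simp)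
    exact hdet (Matrix.det_zero_of_column_eq hij fun r => by simp [hc])
  obtain ⟨ρ, ⟨hρ, rows, cols, hD⟩, hmax⟩ := hex
  push Not at hmax
  set D := (Matrix.of fun i j => V (rows i) (cols j)).det with hDdef
  have hbd : ∀ (M : Matrix (Fin ρ) (Fin ρ) ℤ), (∀ i j, |M i j| ≤ 2 ^ B) →
      |M.det| ≤ k.factorial * 2 ^ (B * k) := by
    intro M hM
    have h1 := Matrix.det_le (A := M) (abv := AbsoluteValue.abs) (x := 2 ^ B) hM
    simp only [AbsoluteValue.abs_apply, Fintype.card_fin, nsmul_eq_mul] at h1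
    refine h1.trans ?_
    rw [← pow_mul]
    have h2 : (ρ.factorial : ℤ) ≤ k.factorial := by
      exact_mod_cast Nat.factorial_le hρ
    have h3 : (2 : ℤ) ^ (B * ρ) ≤ 2 ^ (B * k) :=
      pow_le_pow_right₀ (by norm_num) (Nat.mul_le_mul_left _ hρ)
    exact mul_le_mul h2 h3 (by positivity) (by positivity)
  -- the coefficients
  set c : I → Fin ρ → ℤ := fun p q => - ((-1) ^ ((q.succ : Fin (ρ + 1)) : ℕ) *
    (Matrix.of fun (i : Fin ρ) (j : Fin ρ) =>
      V ((Fin.cons p rows : Fin (ρ + 1) → I) (q.succ.succAbove i)) (cols j)).det) with hc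
  refine ⟨ρ, rows, D, c, hρ, hD, hbd _ (fun i j => by simpa using hV _ _), ?_, ?_⟩
  · intro p q
    simp only [hc, abs_neg, abs_mul, abs_pow, abs_one, one_pow, one_mul]
    exact hbd _ (fun i j => by simpa using hV _ _)
  · intro p t
    have h0 := hmax (Fin.cons p rows) (Fin.cons t cols)
    rw [Matrix.det_succ_column _ 0, Fin.sum_univ_succ] at h0
    have e0 : ((Matrix.of fun i j => V ((Fin.cons p rows : Fin (ρ + 1) → I) i)
        ((Fin.cons t cols : Fin (ρ + 1) → Fin k) j)).submatrix (Fin.succAbove 0)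
        (Fin.succAbove 0)).det = D := by
      rw [hDdef]
      congr 1
    have e1 : ∀ q : Fin ρ, ((Matrix.of fun i j => V ((Fin.cons p rows : Fin (ρ + 1) → I) i)
        ((Fin.cons t cols : Fin (ρ + 1) → Fin k) j)).submatrix q.succ.succAbove
        (Fin.succAbove 0)).det = (Matrix.of fun (i : Fin ρ) (j : Fin ρ) =>
      V ((Fin.cons p rows : Fin (ρ + 1) → I) (q.succ.succAbove i)) (cols j)).det := by
      intro q
      congr 1
    rw [e0] at h0
    simp only [e1] at h0
    simp only [Fin.val_zero, add_zero, pow_zero, one_mul, Matrix.of_apply, Fin.cons_zero,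
      Fin.cons_succ] at h0
    have h1 : ∑ q, c p q * V (rows q) t = - ∑ q : Fin ρ, (-1) ^ ((q.succ : Fin (ρ + 1)) : ℕ) *
        V (rows q) t * (Matrix.of fun (i : Fin ρ) (j : Fin ρ) =>
      V ((Fin.cons p rows : Fin (ρ + 1) → I) (q.succ.succAbove i)) (cols j)).det := by
      rw [← Finset.sum_neg_distrib]
      refine Finset.sum_congr rfl fun q _ => ?_
      simp only [hc]
      ring
    rw [h1]
    linarith

theorem rank_add_le' {m n : ℕ} (A B : Matrix (Fin m) (Fin n) ℝ) :
    (A + B).rank ≤ A.rank + B.rank := by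
  unfold Matrix.rank
  have h : LinearMap.range (A + B).mulVecLin ≤
      LinearMap.range A.mulVecLin ⊔ LinearMap.range B.mulVecLin := by
    rintro _ ⟨x, rfl⟩
    rw [Matrix.mulVecLin_add]
    exact Submodule.add_mem_sup ⟨x, rfl⟩ ⟨x, rfl⟩
  exact (Submodule.finrank_mono h).trans (Submodule.finrank_add_le_finrank_add_finrank _ _)

/-- A matrix supported on few rows and few columns has small rank. -/
theorem rank_cross {m n : ℕ} (N : Matrix (Fin m) (Fin n) ℝ) (R : Finset (Fin m))
    (C : Finset (Fin n)) (h : ∀ i ∉ R, ∀ j ∉ C, N i j = 0) : N.rank ≤ R.card + C.card := by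
  classical
  have hN : N = (Matrix.of fun i (r : R) => if i = (r : Fin m) then (1 : ℝ) else 0) *
      (Matrix.of fun (r : R) j => N r j) +
      (Matrix.of fun i (c : C) => if i ∈ R then (0 : ℝ) else N i c) *
      (Matrix.of fun (c : C) j => if (c : Fin n) = j then (1 : ℝ) else 0) := by
    ext i j
    simp only [Matrix.add_apply, Matrix.mul_apply, Matrix.of_apply]
    have h1 : ∑ x : R, (if i = (x : Fin m) then (1 : ℝ) else 0) * N x j =
        if i ∈ R then N i j else 0 := by
      split_ifs with hi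
      · rw [Finset.sum_eq_single ⟨i, hi⟩]
        · simp
        · intro x _ hx
          rw [if_neg, zero_mul]
          intro he
          exact hx (Subtype.ext he.symm)
        · intro h
          exact absurd (Finset.mem_univ _) h
      · refine Finset.sum_eq_zero fun x _ => ?_
        rw [if_neg, zero_mul]
        intro he
        exact hi (he ▸ x.2)
    have h2 : ∑ x : C, (if i ∈ R then (0 : ℝ) else N i x) * (if (x : Fin n) = j then (1 : ℝ) else 0) =
        if i ∈ R then 0 else N i j := by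
      by_cases hj : j ∈ C
      · rw [Finset.sum_eq_single ⟨j, hj⟩]
        · simp
        · intro x _ hx
          have : ¬ ((x : Fin n) = j) := fun he => hx (Subtype.ext he)
          rw [if_neg this, mul_zero]
        · intro h
          exact absurd (Finset.mem_univ _) h
      · rw [Finset.sum_eq_zero]
        · split_ifs with hi
          · rfl
          · exact (h i hi j hj).symm
        · intro x _
          have : ¬ ((x : Fin n) = j) := fun he => hj (he ▸ x.2)
          rw [if_neg this, mul_zero]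
    rw [h1, h2]
    split_ifs <;> simp
  rw [hN]
  refine (rank_add_le' _ _).trans (Nat.add_le_add ?_ ?_)
  · refine (Matrix.rank_mul_le_left _ _).trans ?_
    have := Matrix.rank_le_card_width (Matrix.of fun (i : Fin m) (r : R) =>
      if i = (r : Fin m) then (1 : ℝ) else 0)
    simpa using this
  · refine (Matrix.rank_mul_le_left _ _).trans ?_
    have := Matrix.rank_le_card_width (Matrix.of fun (i : Fin m) (c : C) =>
      if i ∈ R then (0 : ℝ) else N i c)
    simpa using this

/-- A small linear polynomial. -/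
theorem small_lin {K : ℕ} {S : ℕ} (hS : 1 ≤ S) {ρ : ℕ} (hρ : ρ ≤ K) (c : Fin ρ → ℤ)
    (hc : ∀ q, |c q| ≤ 2 ^ S) :
    Small S (∑ q, MvPolynomial.C (c q) * MvPolynomial.X (Fin.castLE hρ q) :
      MvPolynomial (Fin K) ℤ) := by
  classical
  have hcoeff : ∀ e, MvPolynomial.coeff e (∑ q, MvPolynomial.C (c q) *
      MvPolynomial.X (Fin.castLE hρ q) : MvPolynomial (Fin K) ℤ) =
      ∑ q, if Finsupp.single (Fin.castLE hρ q) 1 = e then c q else 0 := by
    intro e
    rw [MvPolynomial.coeff_sum]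
    refine Finset.sum_congr rfl fun q _ => ?_
    rw [MvPolynomial.coeff_C_mul, MvPolynomial.coeff_X]
    split_ifs <;> simp
  constructor
  · intro r
    rw [MvPolynomial.degreeOf_le_iff]
    intro e he
    rw [MvPolynomial.mem_support_iff, hcoeff] at he
    obtain ⟨q, -, hq⟩ := Finset.exists_ne_zero_of_sum_ne_zero he
    by_cases h : Finsupp.single (Fin.castLE hρ q) 1 = e
    · rw [← h, Finsupp.single_apply]
      split_ifs <;> omega
    · rw [if_neg h] at hq
      exact absurd rfl hq
  · intro e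
    rw [hcoeff]
    by_cases hex : ∃ q, Finsupp.single (Fin.castLE hρ q) 1 = e
    · obtain ⟨q, hq⟩ := hex
      rw [Finset.sum_eq_single q]
      · rw [if_pos hq]
        exact hc q
      · intro q' _ hne
        rw [if_neg]
        intro h
        rw [← hq] at h
        have := Finsupp.single_left_injective (one_ne_zero) h
        exact hne (Fin.castLE_injective hρ this)
      · intro h
        exact absurd (Finset.mem_univ _) h
    · rw [Finset.sum_eq_zero]
      · simp
      · intro q _
        rw [if_neg fun h => hex ⟨q, h⟩]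

theorem num_le (k s : ℕ) (hs : 2 ≤ s) : k.factorial * 2 ^ (s ^ k * k) ≤ 2 ^ s ^ (2 * k + 1) := by
  have h1 : k.factorial ≤ 2 ^ (k * k) := by
    calc k.factorial ≤ k ^ k := Nat.factorial_le_pow k
      _ ≤ (2 ^ k) ^ k := Nat.pow_le_pow_left Nat.lt_two_pow_self.le k
      _ = 2 ^ (k * k) := by rw [pow_mul]
  have h2 : k ≤ s ^ k := (Nat.lt_two_pow_self.le).trans (Nat.pow_le_pow_left hs k)
  have h3 : k * k + s ^ k * k ≤ s ^ (2 * k + 1) := by
    have h4 : k * k ≤ s ^ k * s ^ k := Nat.mul_le_mul h2 h2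
    have h5 : s ^ k * k ≤ s ^ k * s ^ k := Nat.mul_le_mul_left _ h2
    have h6 : s ^ (2 * k + 1) = s ^ k * s ^ k * s := by ring
    rw [h6]
    nlinarith
  calc k.factorial * 2 ^ (s ^ k * k) ≤ 2 ^ (k * k) * 2 ^ (s ^ k * k) :=
        Nat.mul_le_mul_right _ h1
    _ = 2 ^ (k * k + s ^ k * k) := by rw [pow_add]
    _ ≤ _ := Nat.pow_le_pow_right (by norm_num) h3

/-- The class contains the matrices whose entries are, outside `k` rows and `k` columns, small
combinations of `k` unknown reals. -/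
theorem comb_near {k m n : ℕ} (hm : 1 ≤ m) (hn : 1 ≤ n) (A : Matrix (Fin m) (Fin n) ℝ)
    (b : Fin m → ℝ) (h : Pool.Agent.W920.FD.Comb k m n A) : Near (2 * k + 1) m n A b := by
  classical
  obtain ⟨R, C, θ, M, hR, hC, hM, hA⟩ := h
  obtain ⟨ρ, rows, D, c, hρ, hD, hDb, hcb, hlin⟩ := rows_span
    (I := {p : Fin m × Fin n // p.1 ∉ R ∧ p.2 ∉ C}) (k := k) (B := (m + n) ^ k)
    (fun p t => M t p.1.1 p.1.2) (fun p t => hM t _ _)
  have hs : 2 ≤ m + n := by omega
  have hnum : (k.factorial * 2 ^ ((m + n) ^ k * k) : ℤ) ≤ 2 ^ (m + n) ^ (2 * k + 1) := by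
    exact_mod_cast num_le k (m + n) hs
  have hρ' : ρ ≤ 2 * k + 1 := by omega
  set θ' : Fin (2 * k + 1) → ℝ := fun r => if h : (r : ℕ) < ρ then
    A (rows ⟨r, h⟩).1.1 (rows ⟨r, h⟩).1.2 else A ⟨0, hm⟩ ⟨0, hn⟩ with hθ'
  set P : Matrix (Fin m) (Fin n) (MvPolynomial (Fin (2 * k + 1)) ℤ) := Matrix.of fun i j =>
    if h : i ∉ R ∧ j ∉ C then
      ∑ q, MvPolynomial.C (c ⟨(i, j), h⟩ q) * MvPolynomial.X (Fin.castLE hρ' q) else 0 with hP
  have hS1 : 1 ≤ (m + n) ^ (2 * k + 1) := Nat.one_le_pow _ _ (by omega)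
  refine ⟨θ', MvPolynomial.C D, P, ?_, ?_, ?_, ?_, ?_⟩
  · intro r
    left
    simp only [hθ']
    split_ifs with h
    · exact ⟨_, _, rfl⟩
    · exact ⟨_, _, rfl⟩
  · constructor
    · intro r
      rw [MvPolynomial.degreeOf_C]
      exact Nat.zero_le _
    · intro e
      rw [MvPolynomial.coeff_C]
      split_ifs
      · exact hDb.trans hnum
      · simp
  · intro i j
    simp only [hP, Matrix.of_apply]
    split_ifs with h
    · exact small_lin hS1 hρ' _ (fun q => (hcb _ q).trans hnum)
    · constructor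
      · intro r
        simp
      · intro e
        simp
  · rw [MvPolynomial.aeval_C]
    simpa using hD
  · refine (rank_cross _ R C ?_).trans (by omega)
    intro i hi j hj
    simp only [Matrix.of_apply, hP]
    rw [dif_pos ⟨hi, hj⟩, MvPolynomial.aeval_C, map_sum]
    have h1 : ∀ q : Fin ρ, MvPolynomial.aeval θ' (MvPolynomial.C (c ⟨(i, j), ⟨hi, hj⟩⟩ q) *
        MvPolynomial.X (Fin.castLE hρ' q) : MvPolynomial (Fin (2 * k + 1)) ℤ) =
        (c ⟨(i, j), ⟨hi, hj⟩⟩ q : ℝ) * A (rows q).1.1 (rows q).1.2 := by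
      intro q
      rw [map_mul, MvPolynomial.aeval_C, MvPolynomial.aeval_X]
      have : θ' (Fin.castLE hρ' q) = A (rows q).1.1 (rows q).1.2 := by
        simp only [hθ', Fin.val_castLE]
        rw [dif_pos q.2]
      rw [this]
      simp
    rw [Finset.sum_congr rfl fun q _ => h1 q]
    have h2 : (D : ℝ) * A i j = ∑ q, (c ⟨(i, j), ⟨hi, hj⟩⟩ q : ℝ) *
        A (rows q).1.1 (rows q).1.2 := by
      rw [hA i hi j hj, Finset.mul_sum]
      have h3 : ∀ q : Fin ρ, (c ⟨(i, j), ⟨hi, hj⟩⟩ q : ℝ) * A (rows q).1.1 (rows q).1.2 =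
          ∑ t, (c ⟨(i, j), ⟨hi, hj⟩⟩ q : ℝ) * (θ t * M t (rows q).1.1 (rows q).1.2) := by
        intro q
        rw [hA _ (rows q).2.1 _ (rows q).2.2, Finset.mul_sum]
      rw [Finset.sum_congr rfl fun q _ => h3 q, Finset.sum_comm]
      refine Finset.sum_congr rfl fun t _ => ?_
      have h4 : (D : ℝ) * M t i j = ∑ q, (c ⟨(i, j), ⟨hi, hj⟩⟩ q : ℝ) *
          M t (rows q).1.1 (rows q).1.2 := by
        exact_mod_cast hlin ⟨(i, j), ⟨hi, hj⟩⟩ t
      calc (D : ℝ) * (θ t * M t i j) = θ t * (D * M t i j) := by ring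
        _ = _ := by
          rw [h4, Finset.mul_sum]
          refine Finset.sum_congr rfl fun q _ => ?_
          ring
    have h5 : (algebraMap ℤ ℝ) D = (D : ℝ) := rfl
    rw [h5, h2, sub_self]

end Pool.Agent.H568.LP
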