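import Pool.Agent.W920.FD.Stm

set_option autoImplicit false

/-!
# Linear feasibility near small polynomial matrices: the algorithm

The class (for fixed `k`): for `k` of the entries `θ` of `(A, b)` and polynomials `Q`, `P i j` in
`θ`, of degree at most `(m + n) ^ k` and with coefficients at most `2 ^ ((m + n) ^ k)`, the matrix
`Q(θ) A - P(θ)` has rank at most `k`. The positions of the entries, the polynomials and the
matrix of small rank are unknown to the algorithm.

1. All choices of `k` entries `θ` are tried.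
2. The vector `V2` of all monomials: an entry of `b` or `1`, times `k` entries of `A` or `1`, times
   powers of the `θ`; the machinery of `W920.FD` (stages of simultaneous Diophantine approximation,
   ladder, rescaled perceptron algorithm) is applied to it.
-/

namespace Pool.Agent.H568.LP

open Pool.Agent.NPC Pool.Agent.H558R2 Pool.Agent.H622R3.SM Pool.Agent.W920.FD
open Pool.Agent.W920.FC hiding Good2 Good3 Inv2 InvX LadG SolB T1 T3 T4 Wt alg bisQs cmpQs finish lad0 perQs round sortQs stage vr

/-! ### Registers -/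

/-- The registers of `1` and of the entries of `A`. -/
def aregs (m n : ℕ) : List Reg := [2] :: (poss m n).map fun p => [0, p.1, p.2]

/-- The registers of `1`, of the entries of `A`, and of the entries of `b`. -/
def gregs (m n : ℕ) : List Reg := aregs m n ++ (List.range m).map fun i => [1, i]

/-- The register of the number `θ_r`, for the choice `c`. -/
def treg (m n : ℕ) (c : List ℕ) (r : ℕ) : Reg := (gregs m n).getD (c.getD r 0) [2]

/-- The bound for all exponents and indices. -/
def xs (k s : ℕ) : ℕ := 2 * s ^ (k + 2)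

/-- The register of the factor number `d` of the slot number `u`: slots `0, ..., k - 1` for entries
of `A`, slots `k, ..., 2 k - 1` for the powers. -/
def slot (k m n u d : ℕ) : Reg := if u < k then (aregs m n).getD d [2] else [30, u - k, d]

/-- The powers `[30, r, t]`. -/
def powQ (k m n : ℕ) (c : List ℕ) : List Instr :=
  (List.range k).flatMap fun r => (⟨Op.add, [30, r, 0], [2], [3]⟩ : Instr) ::
    (List.range (xs k (m + n))).map fun t =>
      (⟨Op.mul, [30, r, t + 1], [30, r, t], treg m n c r⟩ : Instr)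

/-- The monomials `[31, l, 2 k]`, partial products `[31, l, t]`. -/
def monQ (k m n : ℕ) : List Instr :=
  (exps (xs k (m + n)) (2 * k + 1)).zipIdx.flatMap fun p =>
    (⟨Op.add, [31, p.2, 0], breg (p.1.getD 0 0), [3]⟩ : Instr) ::
      (List.range (2 * k)).map fun t =>
        (⟨Op.mul, [31, p.2, t + 1], [31, p.2, t], slot k m n t (p.1.getD (t + 1) 0)⟩ : Instr)

/-- The vector of the monomials. -/
def V2 (k m n : ℕ) (c : List ℕ) : VS :=
  (powQ k m n c ++ monQ k m n,
    (List.range (exps (xs k (m + n)) (2 * k + 1)).length).map fun l => [31, l, 2 * k])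

/-! ### The parameters (`s = m + n`) -/

/-- The norm of the minors, as forms of the monomials, as a power of two. -/
def h2 (k s : ℕ) : ℕ := s * s + s * (2 + 2 * (k + 1) * s ^ k)

/-- The number of monomials. -/
def N2 (k s : ℕ) : ℕ := (xs k s + 1) ^ (2 * k + 1)

/-- The precision. -/
def E2 (k s : ℕ) : ℕ := h2 k s + 2 * N2 k s + 4

/-- The number of digits. -/
def P2 (k s : ℕ) : ℕ := (N2 k s + 1) * E2 k s

/-- The exponents of the ladder. -/
def Q2 (k s : ℕ) : ℕ := h2 k s + P2 k s + 3

/-- The length of the ladder, at most. -/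
def Z2 (k s : ℕ) : ℕ := N2 k s * (N2 k s * (2 * Q2 k s + 1))

/-- The number of rounds. -/
def R2 (k m n : ℕ) : ℕ := cK m n * Z2 k (m + n) + 1

/-- The computation for a choice `c` of `k` entries. -/
def TB2 (k m n : ℕ) (c : List ℕ) : TT Bool :=
  bnd (stages (V2 k m n c) (E2 k (m + n)) (N2 k (m + n))) fun s =>
    bnd (T3 (V2 k m n c) (Q2 k (m + n)) s.1) fun Lad => T4 (V2 k m n c) m n (R2 k m n) Lad

/-- All choices. -/
def cand2 (k m n : ℕ) : List (List ℕ) := exps (xs k (m + n)) k

/-- One choice is tried; the state is the number of the choice, and whether a solution has been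
found. -/
def try2 (k m n : ℕ) (st : ℕ × Bool) : TT (ℕ × Bool) :=
  bnd (TB2 k m n ((cand2 k m n).getD st.1 [])) fun b => ret (st.1 + 1, st.2 || b)

/-- The computation. -/
def TA2 (k m n : ℕ) : TT Bool :=
  bnd (iter (try2 k m n) (cand2 k m n).length (0, false)) fun st => ret st.2

/-- The algorithm. -/
def alg2 (k : ℕ) : Alg := algOf (TA2 k)

/-! ### Values -/

/-- The value of the factor number `d` of the slot number `u`. -/
noncomputable def slotW (k m n : ℕ) (g : Reg → ℝ) (c : List ℕ) (u d : ℕ) : ℝ :=
  if u < k then g ((aregs m n).getD d [2]) else g (treg m n c (u - k)) ^ d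

/-- The monomial with the exponents `e`. -/
noncomputable def mon2 (k m n : ℕ) (g : Reg → ℝ) (c : List ℕ) (e : List ℕ) : ℝ :=
  g (breg (e.getD 0 0)) * ∏ t ∈ Finset.range (2 * k), slotW k m n g c t (e.getD (t + 1) 0)

/-- The monomial number `l`. -/
noncomputable def w2 (k m n : ℕ) (g : Reg → ℝ) (c : List ℕ) (l : ℕ) : ℝ :=
  mon2 k m n g c ((exps (xs k (m + n)) (2 * k + 1)).getD l [])

/-- The values of the registers of the program for the monomials. -/
noncomputable def vt2 (k m n : ℕ) (g : Reg → ℝ) (c : List ℕ) : Reg → ℝ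
  | [30, r, t] => g (treg m n c r) ^ t
  | [31, l, t] => g (breg (((exps (xs k (m + n)) (2 * k + 1)).getD l []).getD 0 0)) *
      ∏ i ∈ Finset.range t, slotW k m n g c i
        (((exps (xs k (m + n)) (2 * k + 1)).getD l []).getD (i + 1) 0)
  | r => g r

/-! ### The class -/

/-- A polynomial is small: its degree in each variable is at most `s`, its coefficients are at most
`2 ^ s`. -/
def Small {k : ℕ} (s : ℕ) (p : MvPolynomial (Fin k) ℤ) : Prop :=
  (∀ r, p.degreeOf r ≤ s) ∧ ∀ e, |p.coeff e| ≤ 2 ^ s

/-- For `k` of the entries `θ` of `(A, b)` and small polynomials `Q` and `P i j`, the matrix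
`Q(θ) A - P(θ)` has rank at most `k`. -/
def Near (k m n : ℕ) (A : Matrix (Fin m) (Fin n) ℝ) (b : Fin m → ℝ) : Prop :=
  ∃ (θ : Fin k → ℝ) (Q : MvPolynomial (Fin k) ℤ)
    (P : Matrix (Fin m) (Fin n) (MvPolynomial (Fin k) ℤ)),
    (∀ r, (∃ i j, θ r = A i j) ∨ ∃ i, θ r = b i) ∧
    Small ((m + n) ^ k) Q ∧ (∀ i j, Small ((m + n) ^ k) (P i j)) ∧
    MvPolynomial.aeval θ Q ≠ 0 ∧
    (Matrix.of fun i j => MvPolynomial.aeval θ Q * A i j - MvPolynomial.aeval θ (P i j)).rank ≤ k

/-- The choice `c` is right. -/
def GoodT (k m n : ℕ) (A : Matrix (Fin m) (Fin n) ℝ) (b : Fin m → ℝ) (c : List ℕ) : Prop :=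
  ∃ (Q : MvPolynomial (Fin k) ℤ) (P : Matrix (Fin m) (Fin n) (MvPolynomial (Fin k) ℤ)),
    Small ((m + n) ^ k) Q ∧ (∀ i j, Small ((m + n) ^ k) (P i j)) ∧
    MvPolynomial.aeval (fun r : Fin k => start A b (treg m n c r)) Q ≠ 0 ∧
    (Matrix.of fun i j => MvPolynomial.aeval (fun r : Fin k => start A b (treg m n c r)) Q * A i j -
      MvPolynomial.aeval (fun r : Fin k => start A b (treg m n c r)) (P i j)).rank ≤ k

end Pool.Agent.H568.LP
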