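import Pool.Agent.H568.LP.VSize
import Pool.Agent.W920.FD.T_QV
import Pool.Agent.W920.FD.T_Q1
import Pool.Agent.H671R2.PolyAuto

set_option autoImplicit false

/-! # The control is computed in polynomial time -/

namespace Pool.Agent.H568.LP

open Pool.Agent.NPC Pool.Agent.H558R2 Pool.Agent.H622R3.SM Pool.Agent.W920.FD
open Pool.Agent.W920.FC hiding Good2 Good3 Inv2 InvX LadG SolB T1 T3 T4 Wt alg bisQs cmpQs finish lad0 perQs round sortQs stage vr

section

variable {α : Type} [TEnc α]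

attribute [local fun_prop] TQV.pInstr Poly.range_length TQV.pBreg

theorem pAregs {U W : α → List Unit} (hU : Poly U) (hW : Poly W) :
    Poly (fun a => aregs (U a).length (W a).length) := by
  have h := TQV.pPoss hU hW
  unfold aregs
  fun_prop

theorem pGregs {U W : α → List Unit} (hU : Poly U) (hW : Poly W) :
    Poly (fun a => gregs (U a).length (W a).length) := by
  have h := pAregs hU hW
  unfold gregs
  fun_prop

theorem uxs (k : ℕ) {s : α → ℕ} (hs : UPoly s) : UPoly (fun a => xs k (s a)) :=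
  UPoly.mul (UPoly.const 2) (TQV.uPow hs (k + 2))

theorem pPowStep2 (k : ℕ) {L : α → List ℕ} {G : α → List Reg} {c : α → List ℕ} (hL : Poly L)
    (hG : Poly G) (hc : Poly c) :
    Poly (fun a => (List.range k).flatMap fun r => (⟨Op.add, [30, r, 0], [2], [3]⟩ : Instr) ::
      (L a).map fun t => (⟨Op.mul, [30, r, t + 1], [30, r, t],
        (G a).getD ((c a).getD r 0) [2]⟩ : Instr)) := by
  fun_prop

theorem pMonStep2 (k : ℕ) {E : α → List (List ℕ)} {G : α → List Reg} (hE : Poly E)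
    (hG : Poly G) :
    Poly (fun a => (E a).zipIdx.flatMap fun p =>
      (⟨Op.add, [31, p.2, 0], breg (p.1.getD 0 0), [3]⟩ : Instr) ::
        (List.range (2 * k)).map fun t =>
          (⟨Op.mul, [31, p.2, t + 1], [31, p.2, t],
            if t < k then (G a).getD (p.1.getD (t + 1) 0) [2] else
              [30, t - k, p.1.getD (t + 1) 0]⟩ : Instr)) := by
  fun_prop

theorem pV2 (k : ℕ) {U W : α → List Unit} {c : α → List ℕ}
    (hU : Poly U) (hW : Poly W) (hc : Poly c) :
    Poly (fun a => V2 k (U a).length (W a).length (c a)) := by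
  have hs : UPoly (fun a => (U a).length + (W a).length) :=
    UPoly.add (UPoly.length hU) (UPoly.length hW)
  have h1 := pPowStep2 k (uxs k hs).range (pGregs hU hW) hc
  have h2 := TQV.pExps (2 * k + 1) (uxs k hs)
  have h3 := pMonStep2 k h2 (pAregs hU hW)
  unfold V2
  refine Poly.pair (Poly.append h1 h3) ?_
  fun_prop

theorem uh2 (k : ℕ) {s : α → ℕ} (hs : UPoly s) : UPoly (fun a => h2 k (s a)) :=
  UPoly.add (UPoly.mul hs hs) (UPoly.mul hs (UPoly.add (UPoly.const 2)
    (UPoly.mul (UPoly.const (2 * (k + 1))) (TQV.uPow hs k))))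

theorem uN2 (k : ℕ) {s : α → ℕ} (hs : UPoly s) : UPoly (fun a => N2 k (s a)) :=
  TQV.uPow (UPoly.add (uxs k hs) (UPoly.const 1)) (2 * k + 1)

theorem uE2 (k : ℕ) {s : α → ℕ} (hs : UPoly s) : UPoly (fun a => E2 k (s a)) :=
  UPoly.add (UPoly.add (uh2 k hs) (UPoly.mul (UPoly.const 2) (uN2 k hs))) (UPoly.const 4)

theorem uP2 (k : ℕ) {s : α → ℕ} (hs : UPoly s) : UPoly (fun a => P2 k (s a)) :=
  UPoly.mul (UPoly.add (uN2 k hs) (UPoly.const 1)) (uE2 k hs)

theorem uQ2 (k : ℕ) {s : α → ℕ} (hs : UPoly s) : UPoly (fun a => Q2 k (s a)) :=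
  UPoly.add (UPoly.add (uh2 k hs) (uP2 k hs)) (UPoly.const 3)

theorem uZ2 (k : ℕ) {s : α → ℕ} (hs : UPoly s) : UPoly (fun a => Z2 k (s a)) :=
  UPoly.mul (uN2 k hs) (UPoly.mul (uN2 k hs)
    (UPoly.add (UPoly.mul (UPoly.const 2) (uQ2 k hs)) (UPoly.const 1)))

theorem uR2 (k : ℕ) {U W : α → List Unit} (hU : Poly U) (hW : Poly W) :
    UPoly (fun a => R2 k (U a).length (W a).length) :=
  UPoly.add (UPoly.mul (UPoly.add (UPoly.add (UPoly.length hU)
    (UPoly.add (UPoly.length hW) (UPoly.length hW))) (UPoly.const 1))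
    (uZ2 k (UPoly.add (UPoly.length hU) (UPoly.length hW)))) (UPoly.const 1)

theorem pCand2 (k : ℕ) {U W : α → List Unit} (hU : Poly U) (hW : Poly W) :
    Poly (fun a => cand2 k (U a).length (W a).length) :=
  TQV.pExps k (uxs k (UPoly.add (UPoly.length hU) (UPoly.length hW)))

end

/-- The computation for a choice, in polynomial time. -/
theorem ptTB2 (k : ℕ) (hPT : S_PT) (hQS : S_QS) (hQ3 : S_Q3) (hQ4 : S_Q4) {α : Type} [TEnc α]
    (U W : α → List Unit) (c : α → List ℕ) (hU : Poly U) (hW : Poly W) (hc : Poly c) :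
    PT (fun a => TB2 k (U a).length (W a).length (c a)) := by
  obtain ⟨pt1, pt2, pt3⟩ := hPT
  have hs : UPoly (fun a => (U a).length + (W a).length) :=
    UPoly.add (UPoly.length hU) (UPoly.length hW)
  have hV := pV2 k hU hW hc
  have hst : PT (fun a => stages (V2 k (U a).length (W a).length (c a))
      (E2 k ((U a).length + (W a).length)) (N2 k ((U a).length + (W a).length))) := by
    refine hQS α _ _ _ hV (uE2 k hs) (uN2 k hs) ?_
    intro a
    rw [(V2_ord k (U a).length (W a).length (c a)).2.2.2]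
    unfold E2
    omega
  have f1 : Poly (fun p : α × S2 => p.1) := Pool.Agent.NPC.Poly.fst Pool.Agent.NPC.Poly.id
  have hV1 : Poly (fun p : α × S2 => V2 k (U p.1).length (W p.1).length (c p.1)) := hV.comp f1
  have h3 : PT (fun p : α × S2 => T3 (V2 k (U p.1).length (W p.1).length (c p.1))
      (Q2 k ((U p.1).length + (W p.1).length)) p.2.1) :=
    hQ3 (α × S2) _ _ (fun p => p.2.1) hV1
      (uQ2 k (UPoly.add (UPoly.length (hU.comp f1)) (UPoly.length (hW.comp f1))))
      (Pool.Agent.NPC.Poly.fst (Pool.Agent.NPC.Poly.snd Pool.Agent.NPC.Poly.id))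
  have g1 : Poly (fun p : (α × S2) × List (List ℤ × List ℤ) => p.1.1) :=
    Pool.Agent.NPC.Poly.fst (Pool.Agent.NPC.Poly.fst Pool.Agent.NPC.Poly.id)
  have h4 : PT (fun p : (α × S2) × List (List ℤ × List ℤ) =>
      T4 (V2 k (U p.1.1).length (W p.1.1).length (c p.1.1)) (U p.1.1).length (W p.1.1).length
        (R2 k (U p.1.1).length (W p.1.1).length) p.2) :=
    hQ4 ((α × S2) × List (List ℤ × List ℤ)) (fun p => U p.1.1) (fun p => W p.1.1) _ _
      (fun p => p.2) (hU.comp g1) (hW.comp g1) (hV.comp g1) (uR2 k (hU.comp g1) (hW.comp g1))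
      (Pool.Agent.NPC.Poly.snd Pool.Agent.NPC.Poly.id)
  have h34 : PT (fun p : α × S2 => bnd (T3 (V2 k (U p.1).length (W p.1).length (c p.1))
      (Q2 k ((U p.1).length + (W p.1).length)) p.2.1) fun Lad =>
        T4 (V2 k (U p.1).length (W p.1).length (c p.1)) (U p.1).length (W p.1).length
        (R2 k (U p.1).length (W p.1).length) Lad) :=
    pt2 (α × S2) (List (List ℤ × List ℤ)) Bool _ (fun p Lad =>
      T4 (V2 k (U p.1).length (W p.1).length (c p.1)) (U p.1).length (W p.1).length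
        (R2 k (U p.1).length (W p.1).length) Lad) h3 h4
  exact pt2 α S2 Bool _ (fun a s => bnd (T3 (V2 k (U a).length (W a).length (c a))
      (Q2 k ((U a).length + (W a).length)) s.1) fun Lad =>
        T4 (V2 k (U a).length (W a).length (c a)) (U a).length (W a).length
        (R2 k (U a).length (W a).length) Lad) hst h34

theorem shrTB2 (hO : S_OUT) (k m n : ℕ) (c : List ℕ) : Shr (TB2 k m n c) := by
  obtain ⟨-, -, -, shr1, shr2, shr3, shr4⟩ := hO
  unfold TB2 stages
  refine shr2 _ _ _ _ (shr4 _ _ _ _ fun t => ?_) fun t => ?_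
  · unfold stage
    refine shr2 _ _ _ _ (shr3 _) fun o => ?_
    refine shr2 _ _ _ _ (shr4 _ _ _ _ fun t => ?_) fun t => shr1 _ _
    exact shr2 _ _ _ _ (shr3 _) fun o' => shr1 _ _
  · unfold T3
    refine shr2 _ _ _ _ (shr2 _ _ _ _ (shr3 _) fun o => shr1 _ _) fun Lad => ?_
    unfold T4
    refine shr2 _ _ _ _ (shr4 _ _ _ _ fun t => ?_) fun t => shr1 _ _
    unfold Pool.Agent.W920.FD.round
    refine shr2 _ _ _ _ (shr4 _ _ _ _ fun t => ?_) fun t => shr1 _ _
    exact shr2 _ _ _ _ (shr3 _) fun o' => shr1 _ _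

theorem out_try2 (hO : S_OUT) (k m n : ℕ) :
    ∀ (i : ℕ) (st : ℕ × Bool), Out (iter (try2 k m n) i (0, false)) st → st.1 = i := by
  obtain ⟨o1, o2, o3, -⟩ := hO
  intro i
  induction i with
  | zero =>
    intro st h
    have hs : st = (0, false) := o1 _ _ _ h
    rw [hs]
  | succ i ih =>
    intro st h
    obtain ⟨b, hb1, hb2⟩ := o3 _ _ _ _ _ h
    have i1 := ih b hb1
    unfold try2 at hb2
    obtain ⟨s, hs, h3⟩ := o2 _ _ _ _ _ hb2
    have h5 := o1 _ _ _ h3
    rw [h5]
    show b.1 + 1 = i + 1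
    rw [i1]

/-- The control is computed in polynomial time. -/
theorem ptTA2 (k : ℕ) (hO : S_OUT) (hPT : S_PT) (hIT : S_PTITER) (hQS : S_QS) (hQ3 : S_Q3)
    (hQ4 : S_Q4) : PT (fun p : List Unit × List Unit => TA2 k p.1.length p.2.length) := by
  obtain ⟨pt1, pt2, pt3⟩ := id hPT
  obtain ⟨-, -, -, shr1, shr2, shr3, shr4⟩ := id hO
  have hU : Poly (fun p : List Unit × List Unit => p.1) :=
    Pool.Agent.NPC.Poly.fst Pool.Agent.NPC.Poly.id
  have hW : Poly (fun p : List Unit × List Unit => p.2) :=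
    Pool.Agent.NPC.Poly.snd Pool.Agent.NPC.Poly.id
  have hC := pCand2 k hU hW
  have hU' : Poly (fun p : (List Unit × List Unit) × (ℕ × Bool) => p.1.1) :=
    Pool.Agent.NPC.Poly.fst (Pool.Agent.NPC.Poly.fst Pool.Agent.NPC.Poly.id)
  have hW' : Poly (fun p : (List Unit × List Unit) × (ℕ × Bool) => p.1.2) :=
    Pool.Agent.NPC.Poly.snd (Pool.Agent.NPC.Poly.fst Pool.Agent.NPC.Poly.id)
  have hc' : Poly (fun p : (List Unit × List Unit) × (ℕ × Bool) =>
      (cand2 k p.1.1.length p.1.2.length).getD p.2.1 []) :=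
    Pool.Agent.NPC.Poly.getD (hC.comp (Pool.Agent.NPC.Poly.fst Pool.Agent.NPC.Poly.id))
      (Pool.Agent.NPC.Poly.fst (Pool.Agent.NPC.Poly.snd Pool.Agent.NPC.Poly.id))
      (Pool.Agent.NPC.Poly.const _)
  have hTB : PT (fun p : (List Unit × List Unit) × (ℕ × Bool) =>
      TB2 k p.1.1.length p.1.2.length ((cand2 k p.1.1.length p.1.2.length).getD p.2.1 [])) :=
    ptTB2 k hPT hQS hQ3 hQ4 _ _ _ hU' hW' hc'
  have hres : Poly (fun r : ((List Unit × List Unit) × (ℕ × Bool)) × Bool =>
      ((r.1.2.1 + 1, r.1.2.2 || r.2) : ℕ × Bool)) := by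
    fun_prop
  have htry : PT (fun p : (List Unit × List Unit) × (ℕ × Bool) =>
      try2 k p.1.1.length p.1.2.length p.2) :=
    pt2 ((List Unit × List Unit) × (ℕ × Bool)) Bool (ℕ × Bool) _
      (fun p b => ret (p.2.1 + 1, p.2.2 || b)) hTB (pt1 _ _ _ hres)
  have un : UPoly (fun p : List Unit × List Unit => (cand2 k p.1.length p.2.length).length) :=
    UPoly.length hC
  obtain ⟨pn, hpn⟩ := TQ1.upoly_bound un
  have hiter : PT (fun p : List Unit × List Unit => iter (try2 k p.1.length p.2.length)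
      (cand2 k p.1.length p.2.length).length (0, false)) := by
    refine hIT (List Unit × List Unit) (ℕ × Bool) (fun a s => try2 k a.1.length a.2.length s)
      (fun a => (cand2 k a.1.length a.2.length).length) (fun _ => (0, false)) htry un
      (Pool.Agent.NPC.Poly.const _) ?_ ⟨4 * pn + 10, ?_⟩
    · intro a s
      show Shr (try2 k a.1.length a.2.length s)
      unfold try2
      exact shr2 _ _ _ _ (shrTB2 hO _ _ _ _) fun b => shr1 _ _
    · intro a i s hi hout
      have h1 := out_try2 hO k a.1.length a.2.length i s hout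
      have e1 := sz_nat_le s.1
      have e2 : s.1.size ≤ s.1 := Nat.size_le.2 Nat.lt_two_pow_self
      have e3 := sz_bool_le s.2
      have e4 : sz s = sz s.1 + sz s.2 + 1 := sz_pair s.1 s.2
      have e5 := hpn a
      simp only [Polynomial.eval_add, Polynomial.eval_mul, Polynomial.eval_ofNat]
      omega
  exact pt2 (List Unit × List Unit) (ℕ × Bool) Bool _ (fun _ s => ret s.2) hiter
    (pt1 ((List Unit × List Unit) × (ℕ × Bool)) Bool (fun p => p.2.2)
      (Pool.Agent.NPC.Poly.snd (Pool.Agent.NPC.Poly.snd Pool.Agent.NPC.Poly.id)))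

end Pool.Agent.H568.LP
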