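import Pool.Agent.H568.LP.Minor
import Pool.Agent.H568.LP.BF
import Pool.Agent.H568.LP.PTime
import Pool.Agent.W920.FD.All

set_option autoImplicit false

/-! # The final assembly -/

namespace Pool.Agent.H568.LP

open Pool.Agent.NPC Pool.Agent.H558R2 Pool.Agent.H622R3.SM Pool.Agent.W920.FD
open Pool.Agent.W920.FC hiding Good2 Good3 Inv2 InvX LadG SolB T1 T3 T4 Wt alg bisQs cmpQs finish lad0 perQs round sortQs stage vr
open Pool.Agent.W920.FD.TFINAL

/-- One choice: the answer is `true` only for feasible systems, and it is right for a right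
choice. -/
theorem tb2_run (k : ℕ) (hBND : S_BND) (hMONO : S_MONO) (hFEAS : S_FEAS) (hCERT : S_CERT)
    (hSTGS : S_STGS) (hGD : S_GD) (hP3 : S_P3) (hP4 : S_P4) :
    ∃ q : Polynomial ℕ, ∀ (m n : ℕ) (A : Matrix (Fin m) (Fin n) ℝ) (b : Fin m → ℝ)
      (c : List ℕ), 1 ≤ m → ∃ ans : Bool,
      Runs (start A b) (Gd q (m + n) (start A b)) (TB2 k m n c) ans (q.eval (m + n)) ∧
      (ans = true → ∃ x : Fin n → ℝ, b ≤ A.mulVec x) ∧
      (GoodT k m n A b c → (∃ x : Fin n → ℝ, b ≤ A.mulVec x) → ans = true) := by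
  obtain ⟨qv, hv⟩ := VOK2 k
  obtain ⟨qb, hb⟩ := PB2 k
  obtain ⟨q2, h2⟩ := hSTGS qv qb
  obtain ⟨q3, h3⟩ := hP3 qv qb
  obtain ⟨q4, h4⟩ := hP4 qv (2 * qb + 2 * qb + 1)
  set qs : Polynomial ℕ := q2 + (q3 + q4) with hqs
  have e2 : ∀ x, q2.eval x ≤ qs.eval x := fun x => by
    simp only [hqs, Polynomial.eval_add]; omega
  have e3 : ∀ x, q3.eval x ≤ qs.eval x := fun x => by
    simp only [hqs, Polynomial.eval_add]; omega
  have e4 : ∀ x, q4.eval x ≤ qs.eval x := fun x => by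
    simp only [hqs, Polynomial.eval_add]; omega
  refine ⟨qs, ?_⟩
  intro m n A b c hm
  set g : Reg → ℝ := start A b with hg
  have hbase : Base g := base_start A b
  obtain ⟨b1, b2, b3, b4, b5, b6, b7, b8, b9⟩ := hb m n
  have hvok := hv m n g c hbase
  have hlen : (V2 k m n c).2.length = N2 k (m + n) := (V2_ord k m n c).2.2.2
  have hE : Pool.Agent.H568.LP.h2 k (m + n) + 2 * (V2 k m n c).2.length + 4 ≤ E2 k (m + n) := by
    rw [hlen]; exact le_rfl
  obtain ⟨s, hinv, r2⟩ := h2 (m + n) g (V2 k m n c) (w2 k m n g c) (E2 k (m + n))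
    (Pool.Agent.H568.LP.h2 k (m + n)) (N2 k (m + n)) hbase hvok hE b3 b2
  have hinv' : Inv2 (V2 k m n c).2.length (E2 k (m + n)) (Pool.Agent.H568.LP.h2 k (m + n))
      (w2 k m n g c) (V2 k m n c).2.length s := by
    rw [← hlen] at hinv; exact hinv
  have hG2 : Good2 (V2 k m n c).2.length (Pool.Agent.H568.LP.h2 k (m + n)) (P2 k (m + n))
      ((P2 k (m + n) + 1) * N2 k (m + n)) (w2 k m n g c) s.1 := by
    have := hGD _ _ _ _ _ hinv'
    rw [hlen] at this ⊢
    exact this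
  obtain ⟨Lad, hG3, r3⟩ := h3 (m + n) g (V2 k m n c) (w2 k m n g c)
    (Pool.Agent.H568.LP.h2 k (m + n))
    (P2 k (m + n)) ((P2 k (m + n) + 1) * N2 k (m + n)) (Q2 k (m + n)) s.1 hbase hvok hG2 rfl
    b8 b5
  have hZ : (V2 k m n c).2.length * ((V2 k m n c).2.length * (2 * Q2 k (m + n) + 1)) =
      Z2 k (m + n) := by
    rw [hlen]; rfl
  rw [hZ] at hG3
  have hw0 : w2 k m n g c 0 = 1 := w2_zero k m n g c hbase
  have hB : 2 * ((P2 k (m + n) + 1) * N2 k (m + n)) + 2 * Q2 k (m + n) + 1 ≤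
      (2 * qb + 2 * qb + 1).eval (m + n) := by
    simp only [Polynomial.eval_add, Polynomial.eval_mul, Polynomial.eval_ofNat,
      Polynomial.eval_one]
    omega
  have hR : R2 k m n ≤ (2 * qb + 2 * qb + 1).eval (m + n) := by
    simp only [Polynomial.eval_add, Polynomial.eval_mul, Polynomial.eval_ofNat,
      Polynomial.eval_one]
    omega
  obtain ⟨ans, r4, hs, hc⟩ := h4 m n g (V2 k m n c) (w2 k m n g c)
    (Pool.Agent.H568.LP.h2 k (m + n))
    (Z2 k (m + n)) (2 * ((P2 k (m + n) + 1) * N2 k (m + n)) + 2 * Q2 k (m + n) + 1)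
    (R2 k m n) Lad hbase hvok hw0 hG3 hB rfl hR
  have r2' := hMONO _ g _ _ _ _ _ _ (gd_mono (S := m + n) (g := g) e2) le_rfl r2
  have r3' := hMONO _ g _ _ _ _ _ _ (gd_mono (S := m + n) (g := g) e3) le_rfl r3
  have r4' := hMONO _ g _ _ _ _ _ _ (gd_mono (S := m + n) (g := g) e4) le_rfl r4
  have r : Runs g (Gd qs (m + n) g) (TB2 k m n c) ans
      (q2.eval (m + n) + (q3.eval (m + n) + q4.eval (m + n))) := by
    unfold TB2
    refine hBND _ _ g _ _ _ s ans _ _ r2' ?_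
    exact hBND _ _ g _ _ _ Lad ans _ _ r3' r4'
  refine ⟨ans, ?_, ?_, ?_⟩
  · refine hMONO _ g _ _ _ _ _ _ (fun v hv => hv) ?_ r
    simp only [hqs, Polynomial.eval_add]
    omega
  · intro ha
    exact (hFEAS m n A b).1 (hs ha)
  · intro hgood hf
    apply hc
    have hL := hG3.2.2.2.2
    rw [hlen] at hL ⊢
    obtain ⟨C, hC, hminor⟩ := minor2 hm A b c hgood
    exact BF2 hCERT _ _ m n A b _ Lad C hC hminor hL hf

theorem mem_or_false (x y : Bool) : (x || y) = true ↔ x = true ∨ y = true := by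
  cases x <;> cases y <;> simp

/-- The whole computation. -/
theorem ta2_run (k : ℕ) (hBND : S_BND) (hITER : S_ITER) (hMONO : S_MONO) (hFEAS : S_FEAS)
    (hCERT : S_CERT) (hSTGS : S_STGS) (hGD : S_GD) (hP3 : S_P3) (hP4 : S_P4) :
    ∃ q : Polynomial ℕ, ∀ (m n : ℕ) (A : Matrix (Fin m) (Fin n) ℝ) (b : Fin m → ℝ), 1 ≤ m →
      ∃ ans : Bool,
      Runs (start A b) (Gd q (m + n) (start A b)) (TA2 k m n) ans (q.eval (m + n)) ∧
      (ans = true → ∃ x : Fin n → ℝ, b ≤ A.mulVec x) ∧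
      ((∃ c ∈ cand2 k m n, GoodT k m n A b c) → (∃ x : Fin n → ℝ, b ≤ A.mulVec x) →
        ans = true) := by
  obtain ⟨q, hq⟩ := tb2_run k hBND hMONO hFEAS hCERT hSTGS hGD hP3 hP4
  obtain ⟨qb, hb⟩ := PB2 k
  refine ⟨q + qb * q, fun m n A b hm => ?_⟩
  choose! an ha1 ha2 ha3 using fun c => hq m n A b c hm
  obtain ⟨s, hs0, hs⟩ : ∃ s : ℕ → ℕ × Bool, s 0 = (0, false) ∧
      ∀ i, s (i + 1) = ((s i).1 + 1, (s i).2 || an ((cand2 k m n).getD (s i).1 [])) :=
    ⟨fun i => Nat.rec (0, false)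
      (fun _ x => (x.1 + 1, x.2 || an ((cand2 k m n).getD x.1 []))) i, rfl, fun _ => rfl⟩
  have hI : ∀ i, (s i).1 = i := by
    intro i
    induction i with
    | zero => rw [hs0]
    | succ i ih => rw [hs, ih]
  have hR := hITER _ (start A b) (Gd q (m + n) (start A b)) (try2 k m n) s
    (cand2 k m n).length (q.eval (m + n)) (fun i hi => by
      rw [hs]
      unfold try2
      have h1 := hBND _ (ℕ × Bool) (start A b) (Gd q (m + n) (start A b)) _
        (fun b => ret ((s i).1 + 1, (s i).2 || b)) _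
        ((s i).1 + 1, (s i).2 || an ((cand2 k m n).getD (s i).1 [])) _ 0
        (ha1 ((cand2 k m n).getD (s i).1 [])) (Runs.done _ _ 0 fun _ => rfl)
      exact h1)
  rw [hs0] at hR
  have hR2 := hBND _ Bool (start A b) (Gd q (m + n) (start A b)) _
    (fun st => ret st.2) _ (s (cand2 k m n).length).2 _ 0 hR (Runs.done _ _ 0 fun _ => rfl)
  have hsnd : ∀ i, (s i).2 = true ↔ ∃ j < i, an ((cand2 k m n).getD j []) = true := by
    intro i
    induction i with
    | zero => rw [hs0]; simp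
    | succ i ih =>
      rw [hs]
      show ((s i).2 || an ((cand2 k m n).getD (s i).1 [])) = true ↔ _
      rw [mem_or_false, ih, hI]
      constructor
      · rintro (⟨j, hj, h⟩ | h)
        · exact ⟨j, by omega, h⟩
        · exact ⟨i, by omega, h⟩
      · rintro ⟨j, hj, h⟩
        rcases Nat.lt_succ_iff_lt_or_eq.1 hj with hj | rfl
        · exact Or.inl ⟨j, hj, h⟩
        · exact Or.inr h
  refine ⟨(s (cand2 k m n).length).2, ?_, ?_, ?_⟩
  · refine hMONO _ (start A b) _ _ _ _ _ _ (fun v hv => gd_mono (fun x => ?_) v hv) ?_ hR2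
    · rw [Polynomial.eval_add]
      exact Nat.le_add_right _ _
    · rw [Polynomial.eval_add, Polynomial.eval_mul]
      have h1 := Nat.mul_le_mul_right (q.eval (m + n)) (hb m n).2.2.2.2.2.2.2.2
      omega
  · intro h
    obtain ⟨j, -, hj⟩ := (hsnd _).1 h
    exact ha2 _ hj
  · rintro ⟨c, hc, hg⟩ hf
    obtain ⟨j, hj, he⟩ := List.getElem_of_mem hc
    refine (hsnd _).2 ⟨j, hj, ?_⟩
    rw [List.getD_eq_getElem _ _ hj, he]
    exact ha3 c hg hf

theorem gregs_len (m n : ℕ) : (gregs m n).length = m * n + 1 + m := by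
  unfold gregs
  rw [List.length_append, aregs_len, List.length_map, List.length_range]

/-- A choice for `k` entries. -/
theorem near_good {k m n : ℕ} (hm : 1 ≤ m) (hn : 1 ≤ n) (A : Matrix (Fin m) (Fin n) ℝ)
    (b : Fin m → ℝ) (h : Near k m n A b) : ∃ c ∈ cand2 k m n, GoodT k m n A b c := by
  obtain ⟨θ, Q, P, hθ, hQ, hP, hq, hr⟩ := h
  have hx : ∀ r : Fin k, ∃ d ≤ xs k (m + n), start A b ((gregs m n).getD d [2]) = θ r := by
    intro r
    have hmem : ∃ R ∈ gregs m n, start A b R = θ r := by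
      rcases hθ r with ⟨i, j, hij⟩ | ⟨i, hi⟩
      · refine ⟨[0, (i : ℕ), (j : ℕ)], ?_, by rw [start_A, hij]⟩
        unfold gregs aregs
        exact List.mem_append_left _ (List.mem_cons_of_mem _
          (List.mem_map.2 ⟨((i : ℕ), (j : ℕ)), poss_mem i.2 j.2, rfl⟩))
      · refine ⟨[1, (i : ℕ)], ?_, by rw [start_b, hi]⟩
        unfold gregs
        exact List.mem_append_right _ (List.mem_map.2 ⟨(i : ℕ), List.mem_range.2 i.2, rfl⟩)
    obtain ⟨R, hR, hv⟩ := hmem
    obtain ⟨d, hd, he⟩ := List.getElem_of_mem hR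
    refine ⟨d, ?_, by rw [List.getD_eq_getElem _ _ hd, he, hv]⟩
    rw [gregs_len] at hd
    have h1 : (m + n) ^ 2 ≤ (m + n) ^ (k + 2) := Nat.pow_le_pow_right (by omega) (by omega)
    have h2 : m * n + m ≤ 2 * (m + n) ^ 2 := by nlinarith
    unfold xs
    omega
  choose d hd hdv using hx
  refine ⟨List.ofFn d, ?_, ?_⟩
  · unfold cand2
    refine TW1.mem_exps _ k _ (List.length_ofFn) ?_
    intro y hy
    obtain ⟨r, rfl⟩ := (List.mem_ofFn' _ _).1 hy
    exact hd r
  · have hth : (fun r : Fin k => start A b (treg m n (List.ofFn d) r)) = θ := by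
      funext r
      have e1 : (List.ofFn d).getD (r : ℕ) 0 = d r := by
        rw [List.getD_eq_getElem _ _ (by simp)]
        simp
      unfold treg
      rw [e1, hdv]
    refine ⟨Q, P, hQ, hP, ?_, ?_⟩
    · rw [hth]; exact hq
    · rw [hth]; exact hr

/-- **The main theorem.** -/
theorem main2 (k : ℕ) : PolyControl (alg2 k) ∧ OracleFree (alg2 k) ∧
    StronglyPolynomialOn (fun m n A b => Near k m n A b) (alg2 k) := by
  obtain ⟨hBND, hBATCH, hITER, hMONO⟩ := t_TT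
  obtain ⟨hOUT, hCTRL⟩ := t_OUT
  have hLIN := t_LINPOLYB.1
  obtain ⟨hPP3, hPP4⟩ := t_PP34
  obtain ⟨hKER, hSTEP⟩ := t_KERSTEP
  have hA := t_ORD2A t_ORD1
  have hORD2 : Pool.Agent.W920.FC.S_ORD2 := ⟨hA.1, t_ORD2B t_ORD1, hA.2⟩
  have hEQR := t_EQR t_FORM
  have hSZ1 := t_SZ1 t_FORM
  have hLEN := t_LEN t_FORM
  have hHV := t_HVFR t_FORD hEQR hSZ1 hLEN
  have hHVP := t_HVP t_ORD1 hORD2 t_FORD hEQR t_EQM hSZ1 t_SZ2 t_SZ3 t_SZ4 hLEN
  have hSDA := t_SDA t_DIR
  have hBD := t_BD hSDA hLIN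
  have hFN := t_FN hSDA hBD hLIN
  have hSTGS := t_STGS hBND hBATCH hITER hMONO hHV.1 hLIN t_CMP t_BIS hFN
  have hGD := t_GD t_FT
  have hP3 := t_P3 hBND hBATCH hMONO hHV.2 (t_LD hLIN) t_SORT
  have hPERC := t_PERC t_PROJ hSTEP
  have hNX := t_NX hKER hPERC
  have hRD := t_RD hBND hBATCH hITER hMONO hHVP hKER hPERC
  have hP4 := t_P4 hBND hITER hMONO hRD hNX t_I0
  have hPP5 := t_PP5 hPP3 hPP4
  have hQFIN := t_QFIN hPP3 hPP4 hPP5
  have hQSTG := t_QSTG hOUT t_PT t_PTITER t_QF hPP3 hPP4 hQFIN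
  have hQS := t_QS hOUT t_PT t_PTITER hBD hQSTG
  have hQ3 := t_Q3 t_PT t_QF hPP3 hPP4
  have hQ4 := t_Q4 hOUT t_PT t_PTITER (t_QP t_QF) (t_PU4 hPP4)
  refine ⟨?_, ?_, ?_⟩
  · exact hCTRL (TA2 k) (ptTA2 k hOUT t_PT t_PTITER hQS hQ3 hQ4)
  · intro m n h w
    unfold alg2 algOf
    cases TA2 k m n h <;> simp
  · obtain ⟨qs, hqs⟩ := ta2_run k hBND hITER hMONO t_FEAS t_CERT hSTGS hGD hP3 hP4
    refine ⟨qs + 1 + (2 * qs.comp (3 * Polynomial.X) + 3), ?_⟩
    intro m n hm hn A b hC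
    set g : Reg → ℝ := start A b with hg
    obtain ⟨ans, r, hs, hc⟩ := hqs m n A b hm
    have hfuel : qs.eval (m + n) + 1 ≤
        (qs + 1 + (2 * qs.comp (3 * Polynomial.X) + 3)).eval (m + n) := by
      simp only [Polynomial.eval_add, Polynomial.eval_one]
      omega
    obtain ⟨nums, steps, hrun, hsteps, hG⟩ := t_RUN (TA2 k) m n g _ ans _ r ∅ _ hfuel
    refine ⟨ans, nums, steps, hrun, ?_, by omega, ?_⟩
    · constructor
      · exact hs
      · exact hc (near_good hm hn A b hC)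
    · intro A' b' hA hb' v hv'
      have hA2 : (fun i j => ((A' i j : ℚ) : ℝ)) = (A : Fin m → Fin n → ℝ) := by
        funext i j
        exact hA i j
      have hb2 : (fun i => ((b' i : ℚ) : ℝ)) = b := by
        funext i
        exact hb' i
      have hRB := t_BITS.2 m n A' b'
      rw [hA2, hb2] at hRB
      have hQ := hG v hv' _ hRB
      obtain ⟨q, hq, hq2⟩ := t_BITS.1 _ _ hQ
      refine ⟨q, hq, hq2.trans ?_⟩
      have hL := le_inputLength hm A' b'
      have hmono := eval_mono qs (show m + n + 2 * inputLength A' b' ≤ 3 * inputLength A' b' by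
        omega)
      simp only [Polynomial.eval_add, Polynomial.eval_mul, Polynomial.eval_comp,
        Polynomial.eval_X, Polynomial.eval_ofNat]
      omega

end Pool.Agent.H568.LP
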