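import Mathlib

set_option autoImplicit false

/-!
# Forms in monomials, and determinants of sums

`MF SA SB θ β a D K x`: the real number `x` is a combination with integer coefficients, of total
size at most `K`, of products of at most `β` elements of `SB`, at most `a` elements of `SA`, and
powers of the numbers `θ r` with exponents at most `D`.
-/

namespace Pool.Agent.H568.LP

variable (SA SB : Set ℝ) {k : ℕ} (θ : Fin k → ℝ)

/-- Products of at most `β` elements of `SB`, at most `a` elements of `SA`, and powers of the `θ r`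
with exponents at most `D`. -/
def Mon (β a D : ℕ) (x : ℝ) : Prop :=
  ∃ (bs as : List ℝ) (e : Fin k → ℕ), bs.length ≤ β ∧ as.length ≤ a ∧ (∀ y ∈ bs, y ∈ SB) ∧
    (∀ y ∈ as, y ∈ SA) ∧ (∀ r, e r ≤ D) ∧ x = bs.prod * as.prod * ∏ r, θ r ^ e r

/-- Integer combinations of monomials. -/
def MF (β a D K : ℕ) (x : ℝ) : Prop :=
  ∃ L : List (ℤ × ℝ), (L.map fun p => p.1.natAbs).sum ≤ K ∧ (∀ p ∈ L, Mon SA SB θ β a D p.2) ∧
    x = (L.map fun p => (p.1 : ℝ) * p.2).sum

variable {SA SB θ}

theorem Mon.mul {β a D β' a' D' : ℕ} {x y : ℝ} (hx : Mon SA SB θ β a D x)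
    (hy : Mon SA SB θ β' a' D' y) : Mon SA SB θ (β + β') (a + a') (D + D') (x * y) := by
  obtain ⟨bs, as, e, h1, h2, h3, h4, h5, rfl⟩ := hx
  obtain ⟨bs', as', e', h1', h2', h3', h4', h5', rfl⟩ := hy
  refine ⟨bs ++ bs', as ++ as', fun r => e r + e' r, ?_, ?_, ?_, ?_, ?_, ?_⟩
  · rw [List.length_append]; omega
  · rw [List.length_append]; omega
  · intro y hy
    rcases List.mem_append.1 hy with h | h
    · exact h3 y h
    · exact h3' y h
  · intro y hy
    rcases List.mem_append.1 hy with h | h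
    · exact h4 y h
    · exact h4' y h
  · intro r
    exact Nat.add_le_add (h5 r) (h5' r)
  · simp only [List.prod_append, pow_add, Finset.prod_mul_distrib]
    ring

theorem Mon.mono {β a D β' a' D' : ℕ} {x : ℝ} (hx : Mon SA SB θ β a D x) (h : β ≤ β')
    (h' : a ≤ a') (h'' : D ≤ D') : Mon SA SB θ β' a' D' x := by
  obtain ⟨bs, as, e, h1, h2, h3, h4, h5, rfl⟩ := hx
  exact ⟨bs, as, e, h1.trans h, h2.trans h', h3, h4, fun r => (h5 r).trans h'', rfl⟩

theorem MF.mono {β a D K β' a' D' K' : ℕ} {x : ℝ} (hx : MF SA SB θ β a D K x) (h : β ≤ β')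
    (h' : a ≤ a') (h'' : D ≤ D') (hK : K ≤ K') : MF SA SB θ β' a' D' K' x := by
  obtain ⟨L, h1, h2, h3⟩ := hx
  exact ⟨L, h1.trans hK, fun p hp => (h2 p hp).mono h h' h'', h3⟩

theorem MF.zero {β a D K : ℕ} : MF SA SB θ β a D K 0 :=
  ⟨[], by simp, by simp, by simp⟩

theorem MF.ofMon {β a D : ℕ} {x : ℝ} (hx : Mon SA SB θ β a D x) : MF SA SB θ β a D 1 x :=
  ⟨[(1, x)], by simp, by simpa using hx, by simp⟩

theorem MF.add {β a D K K' : ℕ} {x y : ℝ} (hx : MF SA SB θ β a D K x)
    (hy : MF SA SB θ β a D K' y) : MF SA SB θ β a D (K + K') (x + y) := by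
  obtain ⟨L, h1, h2, h3⟩ := hx
  obtain ⟨L', h1', h2', h3'⟩ := hy
  refine ⟨L ++ L', ?_, ?_, ?_⟩
  · rw [List.map_append, List.sum_append]; omega
  · intro p hp
    rcases List.mem_append.1 hp with h | h
    · exact h2 p h
    · exact h2' p h
  · rw [List.map_append, List.sum_append, ← h3, ← h3']

theorem MF.intMul {β a D K : ℕ} {x : ℝ} (c : ℤ) (hx : MF SA SB θ β a D K x) :
    MF SA SB θ β a D (c.natAbs * K) ((c : ℝ) * x) := by
  obtain ⟨L, h1, h2, h3⟩ := hx
  refine ⟨L.map fun p => (c * p.1, p.2), ?_, ?_, ?_⟩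
  · rw [List.map_map]
    have : ((fun p : ℤ × ℝ => p.1.natAbs) ∘ fun p : ℤ × ℝ => (c * p.1, p.2)) =
        fun p => c.natAbs * p.1.natAbs := by
      funext p
      simp [Int.natAbs_mul]
    rw [this, List.sum_map_mul_left]
    exact Nat.mul_le_mul_left _ h1
  · intro p hp
    obtain ⟨q, hq, rfl⟩ := List.mem_map.1 hp
    exact h2 q hq
  · rw [List.map_map, h3, ← List.sum_map_mul_left]
    congr 1
    apply List.map_congr_left
    intro p _
    simp only [Function.comp]
    push_cast
    ring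

theorem MF.neg {β a D K : ℕ} {x : ℝ} (hx : MF SA SB θ β a D K x) :
    MF SA SB θ β a D K (-x) := by
  have := MF.intMul (-1) hx
  simpa using this

theorem MF.monMul {β a D β' a' D' K : ℕ} {x y : ℝ} (hx : Mon SA SB θ β a D x)
    (hy : MF SA SB θ β' a' D' K y) : MF SA SB θ (β + β') (a + a') (D + D') K (x * y) := by
  obtain ⟨L, h1, h2, h3⟩ := hy
  refine ⟨L.map fun p => (p.1, x * p.2), ?_, ?_, ?_⟩
  · rw [List.map_map]
    exact h1
  · intro p hp
    obtain ⟨q, hq, rfl⟩ := List.mem_map.1 hp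
    exact hx.mul (h2 q hq)
  · rw [List.map_map, h3, ← List.sum_map_mul_left]
    congr 1
    apply List.map_congr_left
    intro p _
    simp only [Function.comp]
    ring

theorem MF.mul {β a D K β' a' D' K' : ℕ} {x y : ℝ} (hx : MF SA SB θ β a D K x)
    (hy : MF SA SB θ β' a' D' K' y) :
    MF SA SB θ (β + β') (a + a') (D + D') (K * K') (x * y) := by
  obtain ⟨L, h1, h2, rfl⟩ := hx
  refine MF.mono ?_ le_rfl le_rfl le_rfl (Nat.mul_le_mul_right K' h1)
  clear h1
  induction L with
  | nil => simpa using MF.zero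
  | cons p L ih =>
    have i1 := ih fun q hq => h2 q (List.mem_cons_of_mem _ hq)
    have i2 := MF.intMul p.1 (MF.monMul (h2 p List.mem_cons_self) hy)
    have i3 := i2.add i1
    simp only [List.map_cons, List.sum_cons]
    convert i3 using 1
    · ring
    · ring

theorem MF.one {β a D : ℕ} : MF SA SB θ β a D 1 1 :=
  MF.ofMon ⟨[], [], fun _ => 0, by simp, by simp, by simp, by simp, by simp, by simp⟩

theorem MF.sum {ι : Type*} {β a D K : ℕ} (s : Finset ι) (f : ι → ℝ)
    (h : ∀ i ∈ s, MF SA SB θ β a D K (f i)) : MF SA SB θ β a D (s.card * K) (∑ i ∈ s, f i) := by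
  classical
  induction s using Finset.induction_on with
  | empty => simpa using MF.zero
  | insert i s hi ih =>
    rw [Finset.sum_insert hi, Finset.card_insert_of_notMem hi, add_mul, one_mul, add_comm _ K]
    exact (h i (Finset.mem_insert_self i s)).add
      (ih fun j hj => h j (Finset.mem_insert_of_mem hj))

theorem MF.sumV {ι : Type*} {β a D : ℕ} (s : Finset ι) (f : ι → ℝ) (K : ι → ℕ)
    (h : ∀ i ∈ s, MF SA SB θ β a D (K i) (f i)) : MF SA SB θ β a D (∑ i ∈ s, K i) (∑ i ∈ s, f i) := by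
  classical
  induction s using Finset.induction_on with
  | empty => simpa using MF.zero
  | insert i s hi ih =>
    rw [Finset.sum_insert hi, Finset.sum_insert hi]
    exact (h i (Finset.mem_insert_self i s)).add
      (ih fun j hj => h j (Finset.mem_insert_of_mem hj))

theorem MF.prod {ι : Type*} {D K : ℕ} (s : Finset ι) (β a : ι → ℕ) (f : ι → ℝ)
    (h : ∀ i ∈ s, MF SA SB θ (β i) (a i) D K (f i)) :
    MF SA SB θ (∑ i ∈ s, β i) (∑ i ∈ s, a i) (s.card * D) (K ^ s.card) (∏ i ∈ s, f i) := by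
  classical
  induction s using Finset.induction_on with
  | empty => simpa using MF.one
  | insert i s hi ih =>
    rw [Finset.prod_insert hi, Finset.card_insert_of_notMem hi, Finset.sum_insert hi,
      Finset.sum_insert hi, add_mul, one_mul, add_comm _ D, pow_succ, mul_comm _ K]
    exact (h i (Finset.mem_insert_self i s)).mul
      (ih fun j hj => h j (Finset.mem_insert_of_mem hj))

theorem MF.pow {D K : ℕ} {x : ℝ} (h : MF SA SB θ 0 0 D K x) (t : ℕ) :
    MF SA SB θ 0 0 (t * D) (K ^ t) (x ^ t) := by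
  have := MF.prod (Finset.range t) (fun _ => 0) (fun _ => 0) (fun _ => x) (fun i _ => h)
  simpa using this

theorem MF.ofA {D : ℕ} {x : ℝ} (hx : x ∈ SA) : MF SA SB θ 0 1 D 1 x :=
  MF.ofMon ⟨[], [x], fun _ => 0, by simp, by simp, by simp, by simpa using hx, by simp, by simp⟩

theorem MF.ofB {D : ℕ} {x : ℝ} (hx : x ∈ SB) : MF SA SB θ 1 0 D 1 x :=
  MF.ofMon ⟨[x], [], fun _ => 0, by simp, by simp, by simpa using hx, by simp, by simp, by simp⟩

/-- Small polynomials. -/
theorem MF.ofPoly {s : ℕ} {p : MvPolynomial (Fin k) ℤ} (h1 : ∀ r, p.degreeOf r ≤ s)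
    (h2 : ∀ e, |p.coeff e| ≤ 2 ^ s) :
    MF SA SB θ 0 0 s ((s + 1) ^ k * 2 ^ s) (MvPolynomial.aeval θ p) := by
  classical
  have hsup : p.support.card ≤ (s + 1) ^ k := by
    have : p.support.card ≤ Fintype.card (Fin k → Fin (s + 1)) := by
      rw [← Finset.card_univ]
      refine Finset.card_le_card_of_injOn (fun d => fun r => (⟨min (d r) s, by omega⟩ : Fin (s+1)))
        (fun _ _ => Finset.mem_univ _) ?_
      intro d hd d' hd' heq
      ext r
      have e1 : d r ≤ s := (MvPolynomial.monomial_le_degreeOf r hd).trans (h1 r)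
      have e2 : d' r ≤ s := (MvPolynomial.monomial_le_degreeOf r hd').trans (h1 r)
      have e3 := congrArg Fin.val (congrFun heq r)
      simp only at e3
      omega
    simpa using this
  have hv : MvPolynomial.aeval θ p =
      ∑ d ∈ p.support, ((p.coeff d : ℤ) : ℝ) * ∏ r, θ r ^ d r := by
    rw [MvPolynomial.aeval_def, MvPolynomial.eval₂_eq']
    refine Finset.sum_congr rfl fun d _ => ?_
    simp
  rw [hv]
  refine MF.mono (MF.sum p.support _ (K := 2 ^ s) fun d hd => ?_) le_rfl le_rfl le_rfl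
    (Nat.mul_le_mul_right _ hsup)
  have hm : Mon SA SB θ 0 0 s (∏ r, θ r ^ d r) :=
    ⟨[], [], fun r => d r, by simp, by simp, by simp, by simp,
      fun r => (MvPolynomial.monomial_le_degreeOf r hd).trans (h1 r), by simp⟩
  have := MF.intMul (p.coeff d) (MF.ofMon hm)
  refine this.mono le_rfl le_rfl le_rfl ?_
  rw [mul_one]
  have h3 := h2 d
  rw [Int.abs_eq_natAbs] at h3
  exact_mod_cast h3

/-! ### Determinants -/

theorem fact_le2 (m : ℕ) : m.factorial ≤ 2 ^ (m * m) := by
  calc m.factorial ≤ m ^ m := Nat.factorial_le_pow m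
    _ ≤ (2 ^ m) ^ m := Nat.pow_le_pow_left Nat.lt_two_pow_self.le m
    _ = 2 ^ (m * m) := by rw [pow_mul]

/-- A determinant with many rows in a space of small dimension vanishes. -/
theorem det_zero {m kk : ℕ} (M : Matrix (Fin m) (Fin m) ℝ) (U : Submodule ℝ (Fin m → ℝ))
    (hU : Module.finrank ℝ U ≤ kk) (s : Finset (Fin m)) (hs : kk < s.card)
    (hM : ∀ j ∈ s, M j ∈ U) : M.det = 0 := by
  by_contra hne
  have h1 : LinearIndependent ℝ (fun i => M i) := Matrix.linearIndependent_rows_of_det_ne_zero hne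
  have h2 : LinearIndependent ℝ (fun i : s => M i) := h1.comp _ Subtype.val_injective
  have h3 : LinearIndependent ℝ (fun i : s => (⟨M i, hM i i.2⟩ : U)) := by
    apply LinearIndependent.of_comp U.subtype
    exact h2
  have h4 := h3.fintype_card_le_finrank
  rw [Fintype.card_coe] at h4
  omega

/-- The rows in `s` from `Y`, the other rows from `X`. -/
def pw {m : ℕ} (s : Finset (Fin m)) (Y X : Matrix (Fin m) (Fin m) ℝ) : Matrix (Fin m) (Fin m) ℝ :=
  Matrix.of fun j i => if j ∈ s then Y j i else X j i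

theorem det_add_pw {m : ℕ} (X Y : Matrix (Fin m) (Fin m) ℝ) :
    (X + Y).det = ∑ s : Finset (Fin m), (pw s Y X).det := by
  classical
  rw [add_comm X Y]
  have h := (Matrix.detRowAlternating : (Fin m → ℝ) [⋀^Fin m]→ₗ[ℝ] ℝ).toMultilinearMap.map_add_univ
    Y X
  refine Eq.trans h (Finset.sum_congr rfl fun s _ => ?_)
  show Matrix.detRowAlternating (s.piecewise Y X) = Matrix.detRowAlternating (pw s Y X)
  congr 1
  funext j i
  by_cases hj : j ∈ s
  · have e : (s.piecewise Y X) j = Y j := Finset.piecewise_eq_of_mem _ _ _ hj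
    rw [e]
    simp [pw, hj]
  · have e : (s.piecewise Y X) j = X j := Finset.piecewise_eq_of_notMem _ _ _ hj
    rw [e]
    simp [pw, hj]

/-- The determinant of the sum of a matrix whose entries are small forms, and of a matrix of rank
at most `kk`. -/
theorem MF.det {m kk D K : ℕ} (X Y : Matrix (Fin m) (Fin m) ℝ) (U : Submodule ℝ (Fin m → ℝ))
    (hU : Module.finrank ℝ U ≤ kk) (hY : ∀ j, Y j ∈ U) (β : Fin m → ℕ) (hβ : ∑ j, β j ≤ 1)
    (hX : ∀ j i, MF SA SB θ (β j) 0 D K (X j i)) (hY' : ∀ j i, MF SA SB θ (β j) 1 D K (Y j i)) :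
    MF SA SB θ 1 kk (m * D) (2 ^ m * (2 ^ (m * m) * K ^ m)) (X + Y).det := by
  classical
  rw [det_add_pw]
  refine MF.mono (MF.sum _ _ (K := 2 ^ (m * m) * K ^ m) fun s _ => ?_) le_rfl le_rfl le_rfl ?_
  swap
  · rw [Finset.card_univ, Fintype.card_finset, Fintype.card_fin]
  by_cases hs : kk < s.card
  · rw [det_zero (pw s Y X) U hU s hs]
    · exact MF.zero
    · intro j hj
      have : (pw s Y X) j = Y j := by
        funext i
        simp [pw, hj]
      rw [this]
      exact hY j
  have hs' : s.card ≤ kk := not_lt.1 hs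
  rw [Matrix.det_apply]
  refine MF.mono (MF.sum _ _ (K := K ^ m) fun σ _ => ?_) le_rfl le_rfl le_rfl ?_
  swap
  · rw [Finset.card_univ, Fintype.card_perm, Fintype.card_fin]
    exact Nat.mul_le_mul_right _ (fact_le2 m)
  have hp : MF SA SB θ 1 kk (m * D) (K ^ m) (∏ i, (pw s Y X) (σ i) i) := by
    have h1 := MF.prod (SA := SA) (SB := SB) (θ := θ) (D := D) (K := K) (Finset.univ : Finset (Fin m))
      (fun i => β (σ i)) (fun i => if σ i ∈ s then 1 else 0)
      (fun i => (pw s Y X) (σ i) i) (fun i _ => by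
        by_cases h : σ i ∈ s
        · have e : (pw s Y X) (σ i) i = Y (σ i) i := by simp [pw, h]
          rw [e, if_pos h]
          exact hY' _ _
        · have e : (pw s Y X) (σ i) i = X (σ i) i := by simp [pw, h]
          rw [e, if_neg h]
          exact hX _ _)
    rw [Finset.card_univ, Fintype.card_fin] at h1
    refine h1.mono ?_ ?_ le_rfl le_rfl
    · rw [Equiv.sum_comp σ β]
      exact hβ
    · rw [Equiv.sum_comp σ (fun j => if j ∈ s then 1 else 0)]
      simpa using hs'
  rcases Int.units_eq_one_or (Equiv.Perm.sign σ) with h2 | h2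
  · rw [h2, one_smul]; exact hp
  · rw [h2, Units.neg_smul, one_smul]; exact hp.neg

end Pool.Agent.H568.LP
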