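import Pool.Agent.H568.LP.VSize
import Pool.Agent.H568.LP.MF
import Pool.Agent.W920.FD.T_MIN

set_option autoImplicit false

/-! # The minors are small integer forms of the monomials -/

namespace Pool.Agent.H568.LP

open Pool.Agent.NPC Pool.Agent.H558R2 Pool.Agent.H622R3.SM Pool.Agent.W920.FD
open Pool.Agent.W920.FC hiding Good2 Good3 Inv2 InvX LadG SolB T1 T3 T4 Wt alg bisQs cmpQs finish lad0 perQs round sortQs stage vr
open Pool.Agent.W920.FD.TMIN

theorem poss_mem {m n i j : ℕ} (hi : i < m) (hj : j < n) : (i, j) ∈ poss m n := by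
  unfold poss
  rw [List.mem_flatMap]
  exact ⟨i, List.mem_range.2 hi, List.mem_map.2 ⟨j, List.mem_range.2 hj, rfl⟩⟩

theorem poss_len (m n : ℕ) : (poss m n).length = m * n := by
  unfold poss
  rw [List.length_flatMap]
  simp

theorem aregs_len (m n : ℕ) : (aregs m n).length = m * n + 1 := by
  unfold aregs
  rw [List.length_cons, List.length_map, poss_len]

theorem start_A {m n : ℕ} (A : Matrix (Fin m) (Fin n) ℝ) (b : Fin m → ℝ) (i : Fin m) (j : Fin n) :
    start A b [0, i, j] = A i j := by
  show (if h : (i : ℕ) < m ∧ (j : ℕ) < n then A ⟨i, h.1⟩ ⟨j, h.2⟩ else 0) = _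
  rw [dif_pos ⟨i.2, j.2⟩]

theorem start_b {m n : ℕ} (A : Matrix (Fin m) (Fin n) ℝ) (b : Fin m → ℝ) (i : Fin m) :
    start A b [1, i] = b i := by
  show (if h : (i : ℕ) < m then b ⟨i, h⟩ else 0) = _
  rw [dif_pos i.2]

theorem areg_idx {m n : ℕ} (i : Fin m)
    (j : Fin n) : ∃ d ≤ m * n, (aregs m n).getD d [2] = ([0, (i : ℕ), (j : ℕ)] : Reg) := by
  have h : ([0, (i : ℕ), (j : ℕ)] : Reg) ∈ aregs m n := by
    unfold aregs
    exact List.mem_cons_of_mem _ (List.mem_map.2 ⟨((i : ℕ), (j : ℕ)), poss_mem i.2 j.2, rfl⟩)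
  obtain ⟨d, hd, he⟩ := List.getElem_of_mem h
  refine ⟨d, ?_, ?_⟩
  · rw [aregs_len] at hd
    omega
  · rw [List.getD_eq_getElem _ _ hd, he]

/-- The entries of `A`. -/
def SA {m n : ℕ} (A : Matrix (Fin m) (Fin n) ℝ) : Set ℝ := {x | ∃ i j, x = A i j}

/-- The entries of `b`. -/
def SB {m : ℕ} (b : Fin m → ℝ) : Set ℝ := {x | ∃ i, x = b i}

/-- The numbers `θ`. -/
noncomputable def th {m n : ℕ} (k : ℕ) (A : Matrix (Fin m) (Fin n) ℝ) (b : Fin m → ℝ)
    (c : List ℕ) (r : Fin k) : ℝ := start A b (treg m n c r)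

theorem prod_getD (k : ℕ) (as : List ℝ) (h : as.length ≤ k) :
    ∏ t ∈ Finset.range k, as.getD t 1 = as.prod := by
  induction as generalizing k with
  | nil => simp
  | cons x as ih =>
    rcases k with _ | k
    · simp at h
    · rw [Finset.prod_range_succ']
      simp only [List.getD_cons_succ, List.getD_cons_zero, List.prod_cons]
      rw [ih k (by simpa using h), mul_comm]

theorem mn_le_xs (k m n : ℕ) (hm : 1 ≤ m) : m * n ≤ xs k (m + n) ∧ m ≤ xs k (m + n) := by
  have h1 : (m + n) ^ 2 ≤ (m + n) ^ (k + 2) := Nat.pow_le_pow_right (by omega) (by omega)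
  have h2 : m * n ≤ (m + n) ^ 2 := by nlinarith
  have h3 : m ≤ (m + n) ^ 2 := by nlinarith
  unfold xs
  constructor <;> omega

/-- Every monomial of the right shape is a coordinate of the vector. -/
theorem mon_w2 {k m n : ℕ} (hm : 1 ≤ m) (A : Matrix (Fin m) (Fin n) ℝ) (b : Fin m → ℝ)
    (c : List ℕ) {D : ℕ} (hD : D ≤ xs k (m + n)) {x : ℝ}
    (hx : Mon (SA A) (SB b) (th k A b c) 1 k D x) :
    ∃ l < N2 k (m + n), w2 k m n (start A b) c l = x := by
  classical
  obtain ⟨bs, as, e, h1, h2, h3, h4, h5, rfl⟩ := hx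
  have hbase : start A b [2] = 1 := rfl
  -- the entry of `b`
  obtain ⟨bi, hbi, hbv⟩ : ∃ bi ≤ m, start A b (breg bi) = bs.prod := by
    rcases bs with _ | ⟨y, bs⟩
    · exact ⟨0, Nat.zero_le _, by simp [breg, hbase]⟩
    · have hnil : bs = [] := by
        apply List.eq_nil_of_length_eq_zero
        simp only [List.length_cons] at h1
        omega
      subst hnil
      obtain ⟨i, rfl⟩ := h3 y (by simp)
      refine ⟨(i : ℕ) + 1, i.2, ?_⟩
      unfold breg
      rw [if_neg (by omega), Nat.add_sub_cancel, start_b]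
      simp
  -- the entries of `A`
  have hA : ∀ t : ℕ, ∃ d ≤ m * n, start A b ((aregs m n).getD d [2]) = as.getD t 1 := by
    intro t
    by_cases ht : t < as.length
    · obtain ⟨i, j, hij⟩ := h4 (as.getD t 1) (by
        rw [List.getD_eq_getElem _ _ ht]
        exact List.getElem_mem ht)
      obtain ⟨d, hd, he⟩ := areg_idx i j
      exact ⟨d, hd, by rw [he, start_A, hij]⟩
    · refine ⟨0, Nat.zero_le _, ?_⟩
      have e1 : as.getD t 1 = 1 := List.getD_eq_default _ _ (by omega)
      rw [e1]
      rfl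
  choose ai hai hav using hA
  set f : ℕ → ℕ := fun i => if i = 0 then bi else if i ≤ k then ai (i - 1) else
    if h : i - 1 - k < k then e ⟨i - 1 - k, h⟩ else 0 with hf
  set E : List ℕ := (List.range (2 * k + 1)).map f with hE
  have hEl : E.length = 2 * k + 1 := by simp [hE]
  have hEg : ∀ i < 2 * k + 1, E.getD i 0 = f i := by
    intro i hi
    rw [List.getD_eq_getElem _ _ (by omega)]
    simp [hE]
  have hxs := mn_le_xs k m n hm
  have hfb : ∀ i, f i ≤ xs k (m + n) := by
    intro i
    simp only [hf]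
    split_ifs
    · exact hbi.trans hxs.2
    · exact (hai _).trans hxs.1
    · exact (h5 _).trans hD
    · exact Nat.zero_le _
  obtain ⟨l, hl, hl'⟩ := w2_all k m n (start A b) c E hEl (by
    intro d hd
    obtain ⟨i, -, rfl⟩ := List.mem_map.1 hd
    exact hfb i)
  refine ⟨l, hl, ?_⟩
  rw [hl']
  unfold mon2
  rw [hEg 0 (by omega)]
  have e0 : f 0 = bi := by simp [hf]
  rw [e0, hbv, two_mul, Finset.prod_range_add]
  have p1 : ∏ t ∈ Finset.range k, slotW k m n (start A b) c t (E.getD (t + 1) 0) = as.prod := by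
    rw [← prod_getD k as h2]
    refine Finset.prod_congr rfl fun t ht => ?_
    have ht' := Finset.mem_range.1 ht
    rw [hEg (t + 1) (by omega)]
    have e1 : f (t + 1) = ai t := by
      simp only [hf]
      rw [if_neg (by omega), if_pos (by omega), Nat.add_sub_cancel]
    rw [e1]
    unfold slotW
    rw [if_pos ht', hav]
  have p2 : ∏ t ∈ Finset.range k, slotW k m n (start A b) c (k + t) (E.getD (k + t + 1) 0) =
      ∏ r, th k A b c r ^ e r := by
    rw [Finset.prod_range]
    refine Finset.prod_congr rfl fun t _ => ?_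
    have ht' := t.2
    rw [hEg (k + t + 1) (by omega)]
    have e1 : f (k + t + 1) = e t := by
      simp only [hf]
      rw [if_neg (by omega), if_neg (by omega)]
      have e2 : k + (t : ℕ) + 1 - 1 - k = t := by omega
      rw [dif_pos (by omega)]
      congr 1
      exact Fin.ext e2
    rw [e1]
    unfold slotW th
    rw [if_neg (by omega)]
    have e2 : k + (t : ℕ) - k = t := by omega
    rw [e2]
  rw [p1, p2]
  ring

theorem Rep.single {N : ℕ} {w : ℕ → ℝ} (l : ℕ) (hl : l < N) (a : ℤ) :
    TMIN.Rep N w a.natAbs ((a : ℝ) * w l) := by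
  classical
  refine ⟨fun i => if i = l then a else 0, ?_, ?_⟩
  · have : ∑ i ∈ Finset.range N, (if i = l then a else (0 : ℤ)).natAbs =
        ∑ i ∈ Finset.range N, if i = l then a.natAbs else 0 := by
      refine Finset.sum_congr rfl fun i _ => ?_
      split_ifs <;> simp
    rw [this, Finset.sum_ite_eq' (Finset.range N) l, if_pos (Finset.mem_range.2 hl)]
  · have : ∑ i ∈ Finset.range N, ((if i = l then a else (0 : ℤ) : ℤ) : ℝ) * w i =
        ∑ i ∈ Finset.range N, if i = l then (a : ℝ) * w l else 0 := by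
      refine Finset.sum_congr rfl fun i _ => ?_
      split_ifs with h
      · rw [h]
      · simp
    rw [this, Finset.sum_ite_eq' (Finset.range N) l, if_pos (Finset.mem_range.2 hl)]

/-- From forms in monomials to integer forms of the vector. -/
theorem rep_of_MF {k m n : ℕ} (hm : 1 ≤ m) (A : Matrix (Fin m) (Fin n) ℝ) (b : Fin m → ℝ)
    (c : List ℕ) {D K : ℕ} (hD : D ≤ xs k (m + n)) {x : ℝ}
    (hx : MF (SA A) (SB b) (th k A b c) 1 k D K x) :
    TMIN.Rep (N2 k (m + n)) (w2 k m n (start A b) c) K x := by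
  obtain ⟨L, h1, h2, rfl⟩ := hx
  refine Rep.mono h1 ?_
  clear h1
  induction L with
  | nil => simpa using Rep.zero 0
  | cons p L ih =>
    have i1 := ih fun q hq => h2 q (List.mem_cons_of_mem _ hq)
    obtain ⟨l, hl, hl'⟩ := mon_w2 hm A b c hD (h2 p List.mem_cons_self)
    have i2 := Rep.single (w := w2 k m n (start A b) c) l hl p.1
    rw [hl'] at i2
    simpa using i2.add i1

/-! ### The two parts of the matrix -/

section

variable {m n : ℕ} (A : Matrix (Fin m) (Fin n) ℝ) (b : Fin m → ℝ) (q : ℝ)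
  (p : Fin m → Fin n → ℝ)

/-- The column of small rank. -/
def Yc (i : Fin m) : Option (Fin (m + (n + n))) → ℝ
  | none => 0
  | some x => match (colEquiv m n).symm x with
    | Sum.inl _ => 0
    | Sum.inr (Sum.inl c) => - (q * A i c - p i c)
    | Sum.inr (Sum.inr c) => q * A i c - p i c

/-- The other column. -/
def Xc (i : Fin m) : Option (Fin (m + (n + n))) → ℝ
  | none => q * (- b i)
  | some x => match (colEquiv m n).symm x with
    | Sum.inl r => q * (if i = r then 1 else 0)
    | Sum.inr (Sum.inl c) => - p i c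
    | Sum.inr (Sum.inr c) => p i c

theorem XY (i : Fin m) (x : Option (Fin (m + (n + n)))) :
    Xc b q p i x + Yc A q p i x = q * wmat A b i x := by
  rcases x with _ | x
  · simp [Xc, Yc, wmat]
  · unfold Xc Yc wmat
    simp only
    rcases (colEquiv m n).symm x with r | c | c
    · simp [colEntry]
    · simp only [colEntry]; ring
    · simp only [colEntry]; ring

theorem Yc_mem (x : Option (Fin (m + (n + n)))) : (fun i => Yc A q p i x) ∈
    LinearMap.range (Matrix.of fun i j => q * A i j - p i j).mulVecLin := by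
  have hc : ∀ c : Fin n, (fun i => q * A i c - p i c) ∈
      LinearMap.range (Matrix.of fun i j => q * A i j - p i j).mulVecLin := by
    intro c
    refine ⟨Pi.single c 1, ?_⟩
    rw [Matrix.mulVecLin_apply, Matrix.mulVec_single_one]
    rfl
  rcases x with _ | x
  · exact Submodule.zero_mem _
  · unfold Yc
    simp only
    rcases (colEquiv m n).symm x with r | c | c
    · exact Submodule.zero_mem _
    · exact Submodule.neg_mem _ (hc c)
    · exact hc c

end

theorem K1_le (k dg : ℕ) : (dg + 1) ^ k * 2 ^ dg ≤ 2 ^ ((k + 1) * dg) := by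
  have h1 : dg + 1 ≤ 2 ^ dg := Nat.lt_two_pow_self
  calc (dg + 1) ^ k * 2 ^ dg ≤ (2 ^ dg) ^ k * 2 ^ dg :=
        Nat.mul_le_mul_right _ (Nat.pow_le_pow_left h1 k)
    _ = 2 ^ ((k + 1) * dg) := by
        rw [← pow_mul, ← pow_add]
        congr 1
        ring

/-- The minors are small integer forms of the monomials, up to a positive factor. -/
theorem minor2 {k m n : ℕ} (hm : 1 ≤ m) (A : Matrix (Fin m) (Fin n) ℝ) (b : Fin m → ℝ)
    (c : List ℕ) (hG : GoodT k m n A b c) :
    ∃ C : ℝ, 0 < C ∧ ∀ β : Fin m → Option (Fin (m + (n + n))),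
      (∀ i j, β i = none → β j = none → i = j) →
      ∃ y : ℕ → ℤ, ∑ l ∈ Finset.range (N2 k (m + n)), (y l).natAbs ≤ 2 ^ h2 k (m + n) ∧
        C * dd (wmat A b) β =
          ∑ l ∈ Finset.range (N2 k (m + n)), (y l : ℝ) * w2 k m n (start A b) c l := by
  classical
  obtain ⟨Q, P, hQ, hP, hq0, hr⟩ := hG
  set q : ℝ := MvPolynomial.aeval (fun r : Fin k => start A b (treg m n c r)) Q with hq
  set p : Fin m → Fin n → ℝ := fun i j =>
    MvPolynomial.aeval (fun r : Fin k => start A b (treg m n c r)) (P i j) with hp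
  set dg := (m + n) ^ k with hdg
  set K1 := (dg + 1) ^ k * 2 ^ dg with hK1
  have hq1 : MF (SA A) (SB b) (th k A b c) 0 0 dg K1 q := MF.ofPoly hQ.1 hQ.2
  have hp1 : ∀ i j, MF (SA A) (SB b) (th k A b c) 0 0 dg K1 (p i j) :=
    fun i j => MF.ofPoly (hP i j).1 (hP i j).2
  refine ⟨q ^ m * q ^ m, ?_, ?_⟩
  · exact mul_self_pos.2 (pow_ne_zero _ hq0)
  intro β hβ
  set X : Matrix (Fin m) (Fin m) ℝ := Matrix.of fun j i => Xc b q p i (β j) with hX
  set Y : Matrix (Fin m) (Fin m) ℝ := Matrix.of fun j i => Yc A q p i (β j) with hY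
  have hdet : (X + Y).det = q ^ m * dd (wmat A b) β := by
    have e1 : X + Y = (q • (Matrix.of fun i j => wmat A b i (β j))).transpose := by
      ext j i
      simp only [hX, hY, Matrix.add_apply, Matrix.of_apply, Matrix.transpose_apply,
        Matrix.smul_apply, smul_eq_mul]
      exact XY A b q p i (β j)
    rw [e1, Matrix.det_transpose, Matrix.det_smul, Fintype.card_fin]
    rfl
  have hMF : MF (SA A) (SB b) (th k A b c) 1 k (m * dg)
      (2 ^ m * (2 ^ (m * m) * (2 * K1) ^ m)) (X + Y).det := by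
    refine MF.det X Y (LinearMap.range (Matrix.of fun i j => q * A i j - p i j).mulVecLin) hr
      (fun j => Yc_mem A q p (β j)) (fun j => if β j = none then 1 else 0) ?_ ?_ ?_
    · by_cases hex : ∃ j, β j = none
      · obtain ⟨j0, hj0⟩ := hex
        rw [Finset.sum_eq_single j0]
        · rw [if_pos hj0]
        · intro j _ hj
          rw [if_neg]
          intro h
          exact hj (hβ j j0 h hj0)
        · intro h
          exact absurd (Finset.mem_univ _) h
      · rw [Finset.sum_eq_zero]
        · exact Nat.zero_le _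
        · intro j _
          rw [if_neg]
          intro h
          exact hex ⟨j, h⟩
    · intro j i
      show MF (SA A) (SB b) (th k A b c) (if β j = none then 1 else 0) 0 dg (2 * K1)
        (Xc b q p i (β j))
      rcases hj : β j with _ | x
      · rw [if_pos rfl]
        have h1 : MF (SA A) (SB b) (th k A b c) 1 0 0 1 (b i) := MF.ofB ⟨i, rfl⟩
        have h2 := hq1.mul h1.neg
        refine h2.mono (by omega) (by omega) (by omega) (by omega)
      · rw [if_neg (by simp)]
        unfold Xc
        simp only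
        rcases (colEquiv m n).symm x with r | d | d
        · show MF (SA A) (SB b) (th k A b c) 0 0 dg (2 * K1) (q * (if i = r then 1 else 0))
          split_ifs
          · rw [mul_one]
            exact hq1.mono le_rfl le_rfl le_rfl (by omega)
          · rw [mul_zero]
            exact MF.zero
        · exact (hp1 i d).neg.mono le_rfl le_rfl le_rfl (by omega)
        · exact (hp1 i d).mono le_rfl le_rfl le_rfl (by omega)
    · intro j i
      show MF (SA A) (SB b) (th k A b c) (if β j = none then 1 else 0) 1 dg (2 * K1)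
        (Yc A q p i (β j))
      rcases hj : β j with _ | x
      · exact MF.zero
      · rw [if_neg (by simp)]
        unfold Yc
        simp only
        have hc : ∀ d : Fin n, MF (SA A) (SB b) (th k A b c) 0 1 dg (2 * K1)
            (q * A i d - p i d) := by
          intro d
          have h1 : MF (SA A) (SB b) (th k A b c) 0 1 0 1 (A i d) := MF.ofA ⟨i, d, rfl⟩
          have h2 := hq1.mul h1
          have h3 : MF (SA A) (SB b) (th k A b c) 0 1 dg K1 (q * A i d) :=
            h2.mono (by omega) (by omega) (by omega) (by omega)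
          have h4 : MF (SA A) (SB b) (th k A b c) 0 1 dg K1 (-p i d) :=
            (hp1 i d).neg.mono le_rfl (by omega) le_rfl le_rfl
          have h5 := h3.add h4
          rw [sub_eq_add_neg]
          exact h5.mono le_rfl le_rfl le_rfl (by omega)
        rcases (colEquiv m n).symm x with r | d | d
        · exact MF.zero
        · exact (hc d).neg
        · exact hc d
  have hall := (hq1.pow m).mul hMF
  rw [hdet, ← mul_assoc (q ^ m)] at hall
  have hDle : m * dg + m * dg ≤ xs k (m + n) := by
    have h1 : m * dg ≤ (m + n) ^ (k + 1) := by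
      rw [hdg, pow_succ, mul_comm]
      exact Nat.mul_le_mul_left _ (by omega)
    have h2 : (m + n) ^ (k + 1) ≤ (m + n) ^ (k + 2) := Nat.pow_le_pow_right (by omega) (by omega)
    unfold xs
    linarith
  have hall' : MF (SA A) (SB b) (th k A b c) 1 k (m * dg + m * dg)
      (K1 ^ m * (2 ^ m * (2 ^ (m * m) * (2 * K1) ^ m))) (q ^ m * q ^ m * dd (wmat A b) β) := by
    refine MF.mono hall ?_ ?_ le_rfl le_rfl
    · omega
    · omega
  obtain ⟨y, hy1, hy2⟩ := rep_of_MF hm A b c hDle hall'
  refine ⟨y, hy1.trans ?_, hy2⟩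
  have hK := K1_le k dg
  rw [← hK1] at hK
  calc K1 ^ m * (2 ^ m * (2 ^ (m * m) * (2 * K1) ^ m))
      ≤ (2 ^ ((k + 1) * dg)) ^ m * (2 ^ m * (2 ^ (m * m) * (2 * 2 ^ ((k + 1) * dg)) ^ m)) := by
        gcongr
    _ = 2 ^ (m * m + m * (2 + 2 * (k + 1) * dg)) := by
        rw [← pow_succ', ← pow_mul, ← pow_mul, ← pow_add, ← pow_add, ← pow_add]
        congr 1
        ring
    _ ≤ 2 ^ h2 k (m + n) := by
        apply Nat.pow_le_pow_right (by norm_num)
        unfold h2
        rw [← hdg]
        have h3 : m ≤ m + n := Nat.le_add_right _ _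
        exact add_le_add (Nat.mul_le_mul h3 h3) (Nat.mul_le_mul_right _ h3)

end Pool.Agent.H568.LP
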