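import Pool.Agent.H568.LP.Defs
import Pool.Agent.W920.FD.T_V1ORD
import Pool.Agent.W920.FD.T_V1EQ

set_option autoImplicit false

/-! # The program of the monomials is well ordered, and its equations -/

namespace Pool.Agent.H568.LP

open Pool.Agent.NPC Pool.Agent.H558R2 Pool.Agent.H622R3.SM Pool.Agent.W920.FD
open Pool.Agent.W920.FC hiding Good2 Good3 Inv2 InvX LadG SolB T1 T3 T4 Wt alg bisQs cmpQs finish lad0 perQs round sortQs stage vr
open Pool.Agent.W920.FD.TV1ORD

theorem getD_mem_or {β : Type} (L : List β) (i : ℕ) (d : β) :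
    L.getD i d ∈ L ∨ L.getD i d = d := by
  by_cases h : i < L.length
  · left
    rw [List.getD_eq_getElem _ _ h]
    exact List.getElem_mem h
  · right
    exact List.getD_eq_default _ _ (not_lt.1 h)

theorem areg_base (m n d : ℕ) : (aregs m n).getD d [2] ∈ baseReg := by
  rcases getD_mem_or (aregs m n) d [2] with h | h
  · simp only [aregs, List.mem_cons, List.mem_map] at h
    rcases h with h | ⟨p, -, h⟩
    · unfold aregs
      rw [h]
      exact b2
    · unfold aregs
      rw [← h]
      simp [baseReg]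
  · rw [h]
    exact b2

theorem treg_base (m n : ℕ) (c : List ℕ) (r : ℕ) : treg m n c r ∈ baseReg := by
  unfold treg
  rcases getD_mem_or (gregs m n) (c.getD r 0) [2] with h | h
  · simp only [gregs, aregs, List.mem_append, List.mem_cons, List.mem_map] at h
    rcases h with (h | ⟨p, -, h⟩) | ⟨i, -, h⟩
    · unfold gregs aregs
      rw [h]
      exact b2
    · unfold gregs aregs
      rw [← h]
      simp [baseReg]
    · unfold gregs aregs
      rw [← h]
      simp [baseReg]
  · rw [h]
    exact b2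

/-! ### Powers -/

theorem wr_powQ (k m n : ℕ) (c : List ℕ) (r : Reg) :
    r ∈ wr (powQ k m n c) ↔ ∃ a < k, ∃ t ≤ xs k (m + n), r = [30, a, t] := by
  unfold powQ
  rw [mem_wr_range]
  refine exists_congr fun a => and_congr_right fun ha => ?_
  rw [wr_cons, map_range_eq]
  simp only [Set.mem_union, Set.mem_singleton_iff, mem_wr_range]
  constructor
  · rintro (h | ⟨s, hs, h⟩)
    · exact ⟨0, by omega, h⟩
    · refine ⟨s + 1, by omega, ?_⟩
      simpa [mem_wr, eq_comm] using h
  · rintro ⟨s, hs, h⟩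
    rcases s with _ | s
    · exact Or.inl h
    · exact Or.inr ⟨s, by omega, by simpa [mem_wr, eq_comm] using h⟩

theorem ord_powQ (k m n : ℕ) (c : List ℕ) : Ord baseReg (powQ k m n c) := by
  have hS : ∀ a t, ([30, a, t] : Reg) ∉ baseReg := by
    intro a t h
    simp [baseReg] at h
  unfold powQ
  refine ord_range _ _ _ fun a ha => ?_
  set X : Set Reg := {r | ∃ j < a, r ∈ wr ((⟨Op.add, [30, j, 0], [2], [3]⟩ : Instr) ::
    (List.range (xs k (m + n))).map fun t =>
      (⟨Op.mul, [30, j, t + 1], [30, j, t], treg m n c j⟩ : Instr))} with hX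
  have hX' : ∀ t, ([30, a, t] : Reg) ∉ X := by
    intro t h
    obtain ⟨j, hj, h⟩ := h
    obtain ⟨I, hI, h⟩ := h
    simp only [List.mem_cons, List.mem_map, List.mem_range] at hI
    rcases hI with rfl | ⟨t, ht, rfl⟩
    · simp at h; omega
    · simp at h; omega
  rw [ord_cons]
  refine ⟨Or.inl b2, Or.inl b3, ?_, ?_⟩
  · rintro (h | h)
    · exact hS _ _ h
    · exact hX' _ h
  · rw [map_range_eq]
    refine ord_range _ _ _ fun t ht => ?_
    rw [ord_cons]
    refine ⟨?_, Or.inl (Or.inl (Or.inl (treg_base m n c a))), ?_, trivial⟩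
    · rcases t with _ | t
      · exact Or.inl (Or.inr rfl)
      · exact Or.inr ⟨t, by omega, by simp [mem_wr]⟩
    · rintro (((h | h) | h) | h)
      · exact hS _ _ h
      · exact hX' _ h
      · simp at h
      · obtain ⟨j, hj, h⟩ := h
        simp [mem_wr] at h
        omega

/-! ### Monomials -/

theorem slot_mem2 (k m n : ℕ) (S : Set Reg) (hb : baseReg ⊆ S)
    (h30 : ∀ a < k, ∀ t ≤ xs k (m + n), [30, a, t] ∈ S) (u d : ℕ) (hu : u < 2 * k)
    (hd : d ≤ xs k (m + n)) : slot k m n u d ∈ S := by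
  unfold slot
  split_ifs with h1
  · exact hb (areg_base m n d)
  · exact h30 _ (by omega) _ hd

/-- a block of the program of the monomials -/
def blk2 (k m n : ℕ) (l : ℕ) : List Instr :=
  (⟨Op.add, [31, l, 0], breg (((exps (xs k (m + n)) (2 * k + 1)).getD l []).getD 0 0), [3]⟩ :
    Instr) :: (List.range (2 * k)).map fun t =>
      (⟨Op.mul, [31, l, t + 1], [31, l, t],
        slot k m n t (((exps (xs k (m + n)) (2 * k + 1)).getD l []).getD (t + 1) 0)⟩ : Instr)

theorem monQ_eq (k m n : ℕ) :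
    monQ k m n = (List.range (N2 k (m + n))).flatMap (blk2 k m n) := by
  unfold monQ
  rw [zipIdx_eq _ [], exps_len]
  rfl

theorem wr_blk2 (k m n : ℕ) (l : ℕ) (r : Reg) :
    r ∈ wr (blk2 k m n l) ↔ ∃ t ≤ 2 * k, r = [31, l, t] := by
  unfold blk2
  rw [wr_cons, map_range_eq]
  simp only [Set.mem_union, Set.mem_singleton_iff, mem_wr_range]
  constructor
  · rintro (h | ⟨s, hs, h⟩)
    · exact ⟨0, by omega, h⟩
    · refine ⟨s + 1, by omega, ?_⟩
      simpa [mem_wr, eq_comm] using h
  · rintro ⟨s, hs, h⟩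
    rcases s with _ | s
    · exact Or.inl h
    · exact Or.inr ⟨s, by omega, by simpa [mem_wr, eq_comm] using h⟩

theorem ord_monQ (k m n : ℕ) (S : Set Reg) (hb : baseReg ⊆ S)
    (h30 : ∀ a < k, ∀ t ≤ xs k (m + n), [30, a, t] ∈ S)
    (hS : ∀ l t, ([31, l, t] : Reg) ∉ S) : Ord S (monQ k m n) := by
  rw [monQ_eq]
  refine ord_range _ _ _ fun l hl => ?_
  have hX : ∀ t, ([31, l, t] : Reg) ∉ {r | ∃ j < l, r ∈ wr (blk2 k m n j)} := by
    intro t h
    obtain ⟨j, hj, h⟩ := h
    rw [wr_blk2] at h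
    obtain ⟨t, ht, h⟩ := h
    simp at h
    omega
  unfold blk2
  rw [ord_cons]
  refine ⟨Or.inl (hb (breg_base _)), Or.inl (hb b3), ?_, ?_⟩
  · rintro (h | h)
    · exact hS _ _ h
    · exact hX _ h
  · rw [map_range_eq]
    refine ord_range _ _ _ fun t ht => ?_
    rw [ord_cons]
    refine ⟨?_, Or.inl (Or.inl (Or.inl
      (slot_mem2 k m n S hb h30 t _ ht (exps_getD_le _ _ _ _)))), ?_, trivial⟩
    · rcases t with _ | t
      · exact Or.inl (Or.inr rfl)
      · exact Or.inr ⟨t, by omega, by simp [mem_wr]⟩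
    · rintro (((h | h) | h) | h)
      · exact hS _ _ h
      · exact hX _ h
      · simp at h
      · obtain ⟨j, hj, h⟩ := h
        simp [mem_wr] at h
        omega

theorem V2_ord (k m n : ℕ) (c : List ℕ) :
    Ord baseReg (V2 k m n c).1 ∧ (∀ r ∈ wr (V2 k m n c).1, PreHd r) ∧
    (∀ r ∈ (V2 k m n c).2, r ∈ wr (V2 k m n c).1) ∧ (V2 k m n c).2.length = N2 k (m + n) := by
  refine ⟨?_, ?_, ?_, ?_⟩
  · unfold V2
    rw [TV1ORD.ord_append]
    refine ⟨ord_powQ k m n c, ?_⟩
    refine ord_monQ k m n _ (fun r hr => Or.inl hr) ?_ ?_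
    · intro a ha t ht
      exact Or.inr ((wr_powQ k m n c _).2 ⟨a, ha, t, ht, rfl⟩)
    · rintro l t (h | h)
      · simp [baseReg] at h
      · rw [wr_powQ] at h
        obtain ⟨a, -, t, -, h⟩ := h
        simp at h
  · intro r hr
    unfold V2 at hr
    rw [TV1ORD.wr_append] at hr
    unfold PreHd
    rcases hr with h | h
    · rw [wr_powQ] at h
      obtain ⟨a, -, t, -, rfl⟩ := h
      exact Or.inl rfl
    · rw [monQ_eq, mem_wr_range] at h
      obtain ⟨l, -, h⟩ := h
      rw [wr_blk2] at h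
      obtain ⟨t, -, rfl⟩ := h
      exact Or.inr (Or.inl rfl)
  · intro r hr
    unfold V2 at hr ⊢
    simp only [List.mem_map, List.mem_range, exps_len] at hr
    obtain ⟨l, hl, rfl⟩ := hr
    rw [TV1ORD.wr_append, monQ_eq]
    right
    rw [mem_wr_range]
    exact ⟨l, hl, (wr_blk2 _ _ _ _ _).2 ⟨2 * k, le_rfl, rfl⟩⟩
  · unfold V2 N2
    simp only [List.length_map, List.length_range, exps_len]

/-! ### Equations -/

theorem vt2_base (k m n : ℕ) (g : Reg → ℝ) (c : List ℕ) (r : Reg)
    (hr : r ∈ baseReg) : vt2 k m n g c r = g r := by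
  have hr' : r.headD 0 < 4 := hr
  unfold vt2
  split
  · simp at hr'
  · simp at hr'
  · rfl

theorem vt2_30 (k m n : ℕ) (g : Reg → ℝ) (c : List ℕ) (r t : ℕ) :
    vt2 k m n g c [30, r, t] = g (treg m n c r) ^ t := rfl

theorem vt2_31 (k m n : ℕ) (g : Reg → ℝ) (c : List ℕ) (l t : ℕ) :
    vt2 k m n g c [31, l, t] =
      g (breg (((exps (xs k (m + n)) (2 * k + 1)).getD l []).getD 0 0)) *
      ∏ i ∈ Finset.range t, slotW k m n g c i
        (((exps (xs k (m + n)) (2 * k + 1)).getD l []).getD (i + 1) 0) := rfl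

theorem vt2_slot (k m n : ℕ) (g : Reg → ℝ) (c : List ℕ) (u d : ℕ) :
    vt2 k m n g c (slot k m n u d) = slotW k m n g c u d := by
  unfold slotW slot
  by_cases h : u < k
  · rw [if_pos h, if_pos h]
    exact vt2_base k m n g c _ (areg_base m n d)
  · rw [if_neg h, if_neg h]
    rfl

theorem V2_eq (k m n : ℕ) (g : Reg → ℝ) (c : List ℕ) (hb : Base g) :
    (∀ r ∈ baseReg, vt2 k m n g c r = g r) ∧
    (∀ I ∈ (V2 k m n c).1, Eqn (vt2 k m n g c) I) ∧
    ∀ l < (V2 k m n c).2.length,
      vt2 k m n g c ((V2 k m n c).2.getD l [3]) = w2 k m n g c l := by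
  have h2 : vt2 k m n g c [2] = 1 := by
    rw [vt2_base k m n g c [2] b2]
    exact hb.1
  have h3 : vt2 k m n g c [3] = 0 := by
    rw [vt2_base k m n g c [3] b3]
    exact hb.2
  refine ⟨fun r hr => vt2_base k m n g c r hr, ?_, ?_⟩
  · intro I hI
    unfold V2 at hI
    rw [List.mem_append] at hI
    rcases hI with hI | hI
    · unfold powQ at hI
      rw [List.mem_flatMap] at hI
      obtain ⟨r, -, hI⟩ := hI
      rw [List.mem_cons, List.mem_map] at hI
      rcases hI with rfl | ⟨t, -, rfl⟩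
      · apply TV1EQ.eqn_add
        rw [vt2_30, h2, h3]
        simp
      · apply TV1EQ.eqn_mul
        rw [vt2_30, vt2_30, vt2_base k m n g c _ (treg_base m n c r), pow_succ]
    · unfold monQ at hI
      rw [List.mem_flatMap] at hI
      obtain ⟨q, hq, hI⟩ := hI
      have hq' := (TV1EQ.zipIdx_getD _ [] q hq).2
      rw [List.mem_cons, List.mem_map] at hI
      rcases hI with rfl | ⟨r, -, rfl⟩
      · apply TV1EQ.eqn_add
        rw [vt2_31, vt2_base k m n g c _ (breg_base _), h3, hq']
        simp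
      · apply TV1EQ.eqn_mul
        rw [vt2_31, vt2_31, vt2_slot, Finset.prod_range_succ, hq']
        ring
  · intro l hl
    unfold V2 at hl ⊢
    simp only at hl ⊢
    rw [List.length_map, List.length_range] at hl
    have e : ((List.range (exps (xs k (m + n)) (2 * k + 1)).length).map
        fun l => ([31, l, 2 * k] : Reg)).getD l [3] = [31, l, 2 * k] := by
      rw [List.getD_eq_getElem _ _ (by simpa using hl)]
      simp
    rw [e]
    rfl

end Pool.Agent.H568.LP
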