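import Pool.Agent.H568.LP.VOrd
import Pool.Agent.W920.FD.T_V1SZ
import Pool.Agent.W920.FD.T_V1LEN
import Pool.Agent.W920.FD.T_VOK1
import Pool.Agent.W920.FD.T_W1
import Pool.Agent.W920.FD.T_PB

set_option autoImplicit false

/-! # The vector of the monomials is fine -/

namespace Pool.Agent.H568.LP

open Pool.Agent.NPC Pool.Agent.H558R2 Pool.Agent.H622R3.SM Pool.Agent.W920.FD
open Pool.Agent.W920.FC hiding Good2 Good3 Inv2 InvX LadG SolB T1 T3 T4 Wt alg bisQs cmpQs finish lad0 perQs round sortQs stage vr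
open Pool.Agent.W920.FD.TV1SZ

/-! ### Sizes -/

section

variable {k m n D lam : ℕ} {g : Reg → ℝ} {c : List ℕ}
  (h : ∀ r ∈ baseReg, ∃ z : ℤ, z.natAbs ≤ 2 ^ lam ∧ g r * D = z)

include h

theorem iq_slotW (hD : D ≤ 2 ^ lam) (u d : ℕ) (hd : d ≤ xs k (m + n)) :
    IQ D lam (xs k (m + n) + 1) 1 (slotW k m n g c u d) := by
  unfold slotW
  split_ifs with hu
  · exact iq_pad hD (base_iq h _ (areg_base m n d)) (by omega)
  · have h1 := iq_pow (base_iq h _ (treg_base m n c (u - k))) d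
    rw [one_pow, one_mul] at h1
    exact iq_pad hD h1 (by omega)

theorem iq_mon2 (hD : D ≤ 2 ^ lam) (e : List ℕ) (he : ∀ i, e.getD i 0 ≤ xs k (m + n)) (t : ℕ)
    (ht : t ≤ 2 * k) :
    IQ D lam (1 + 2 * k * (xs k (m + n) + 1)) 1
      (g (breg (e.getD 0 0)) * ∏ i ∈ Finset.range t, slotW k m n g c i (e.getD (i + 1) 0)) := by
  have h1 := iq_prod (D := D) (lam := lam) t
    (fun i => slotW k m n g c i (e.getD (i + 1) 0))
    (fun i _ => iq_slotW (c := c) h hD i _ (he (i + 1)))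
  have h2 := iq_mul (base_iq h _ (TV1SZ.breg_base (e.getD 0 0))) h1
  rw [one_pow, one_mul] at h2
  refine iq_pad hD h2 ?_
  have := Nat.mul_le_mul_right (xs k (m + n) + 1) ht
  omega

theorem iq_pw2 (hD : D ≤ 2 ^ lam) (r t : ℕ) (ht : t ≤ xs k (m + n)) (hk : 1 ≤ k) :
    IQ D lam (1 + 2 * k * (xs k (m + n) + 1)) 1 (g (treg m n c r) ^ t) := by
  have h1 := iq_pow (base_iq h _ (treg_base m n c r)) t
  rw [one_pow, one_mul] at h1
  refine iq_pad hD h1 ?_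
  have h2 : xs k (m + n) + 1 ≤ 2 * k * (xs k (m + n) + 1) := Nat.le_mul_of_pos_left _ (by omega)
  omega

end

/-- the destinations of the powers and monomials -/
theorem dst_powQ (k m n : ℕ) (c : List ℕ) :
    ∀ I ∈ powQ k m n c, ∃ r t, r < k ∧ t ≤ xs k (m + n) ∧ I.dst = [30, r, t] := by
  intro I hI
  unfold powQ at hI
  rw [List.mem_flatMap] at hI
  obtain ⟨r, hr, hI⟩ := hI
  rw [List.mem_range] at hr
  rw [List.mem_cons, List.mem_map] at hI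
  rcases hI with rfl | ⟨t, ht, rfl⟩
  · exact ⟨r, 0, hr, Nat.zero_le _, rfl⟩
  · rw [List.mem_range] at ht
    exact ⟨r, t + 1, hr, ht, rfl⟩

theorem dst_monQ (k m n : ℕ) : ∀ I ∈ monQ k m n, ∃ l t, t ≤ 2 * k ∧ I.dst = [31, l, t] := by
  intro I hI
  unfold monQ at hI
  rw [List.mem_flatMap] at hI
  obtain ⟨e, he, hI⟩ := hI
  rw [List.mem_cons, List.mem_map] at hI
  rcases hI with rfl | ⟨r, hr, rfl⟩
  · exact ⟨e.2, 0, Nat.zero_le _, rfl⟩
  · rw [List.mem_range] at hr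
    exact ⟨e.2, r + 1, hr, rfl⟩

/-- the polynomial of the sizes -/
noncomputable def szp (k : ℕ) : Polynomial ℕ :=
  Polynomial.X * (1 + Polynomial.C (2 * k) * (2 * Polynomial.X ^ (k + 2) + 1))

theorem szp_eval (k s : ℕ) : (szp k).eval s = s * (1 + 2 * k * (2 * s ^ (k + 2) + 1)) := by
  simp [szp]

theorem V2_sz (k : ℕ) : ∃ q : Polynomial ℕ, ∀ (m n lam : ℕ) (g : Reg → ℝ) (c : List ℕ),
    RB lam g →
    (∀ I ∈ (V2 k m n c).1, QB (q.eval (m + n + lam)) (vt2 k m n g c I.dst)) ∧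
    ∃ D : ℕ, CD (N2 k (m + n)) (w2 k m n g c) D (q.eval (m + n + lam)) := by
  refine ⟨szp k, ?_⟩
  intro m n lam g c hRB
  obtain ⟨D, hD1, hD, h⟩ := hRB
  rw [szp_eval]
  set S := m + n + lam with hS
  have hle : lam * (1 + 2 * k * (xs k (m + n) + 1)) ≤ S * (1 + 2 * k * (2 * S ^ (k + 2) + 1)) := by
    unfold xs
    have h1 : (m + n) ^ (k + 2) ≤ S ^ (k + 2) := Nat.pow_le_pow_left (by omega) _
    gcongr
    omega
  have hbd : 1 * 2 ^ (lam * (1 + 2 * k * (xs k (m + n) + 1))) ≤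
      2 ^ (S * (1 + 2 * k * (2 * S ^ (k + 2) + 1))) := by
    rw [one_mul]
    exact Nat.pow_le_pow_right (by norm_num) hle
  refine ⟨?_, ?_⟩
  · intro I hI
    have hI' : I ∈ powQ k m n c ++ monQ k m n := hI
    rw [List.mem_append] at hI'
    rcases hI' with hI | hI
    · obtain ⟨r, t, hr, ht, h1⟩ := dst_powQ _ _ _ _ I hI
      rw [h1]
      exact iq_qb hD1 hD le_rfl (iq_pw2 (c := c) h hD r t ht (by omega)) hbd
    · obtain ⟨l, t, ht, h1⟩ := dst_monQ _ _ _ I hI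
      rw [h1]
      exact iq_qb hD1 hD le_rfl
        (iq_mon2 (c := c) h hD _ (fun i => TV1SZ.exps_getD_le _ _ _ _) t ht) hbd
  · refine ⟨D ^ (1 + 2 * k * (xs k (m + n) + 1)), Nat.one_le_pow _ _ hD1, ?_, ?_⟩
    · refine le_trans ?_ hbd
      rw [one_mul, pow_mul 2 lam]
      exact Nat.pow_le_pow_left hD _
    · intro l _
      obtain ⟨z, hz, hz'⟩ := iq_mon2 (c := c) h hD
        ((exps (xs k (m + n)) (2 * k + 1)).getD l [])
        (fun i => TV1SZ.exps_getD_le _ _ _ _) (2 * k) le_rfl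
      exact ⟨z, hz.trans hbd, hz'⟩

/-! ### Length -/

theorem V2_len (k : ℕ) : ∃ q : Polynomial ℕ, ∀ (m n : ℕ) (c : List ℕ),
    (V2 k m n c).1.length ≤ q.eval (m + n) := by
  refine ⟨Polynomial.C k * (2 * Polynomial.X ^ (k + 2) + 1) +
    (2 * Polynomial.X ^ (k + 2) + 1) ^ (2 * k + 1) * Polynomial.C (2 * k + 1), ?_⟩
  intro m n c
  have e1 : (powQ k m n c).length ≤ k * (xs k (m + n) + 1) := by
    unfold powQ
    exact TV1LEN.len_fr k _ _ (fun a => by simp)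
  have e2 : (monQ k m n).length ≤ N2 k (m + n) * (2 * k + 1) := by
    unfold monQ N2
    refine (TV1LEN.len_le _ _ (2 * k + 1) (fun p _ => by simp)).trans ?_
    rw [List.length_zipIdx]
    exact Nat.mul_le_mul_right _ (TV1LEN.l_exps _ _)
  have e3 : (V2 k m n c).1.length = (powQ k m n c).length + (monQ k m n).length := by
    simp only [V2, List.length_append]
  have e4 : (Polynomial.C k * (2 * Polynomial.X ^ (k + 2) + 1) +
    (2 * Polynomial.X ^ (k + 2) + 1) ^ (2 * k + 1) * Polynomial.C (2 * k + 1) :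
      Polynomial ℕ).eval (m + n) = k * (xs k (m + n) + 1) + N2 k (m + n) * (2 * k + 1) := by
    simp [xs, N2]
  rw [e4, e3]
  exact Nat.add_le_add e1 e2

/-! ### Bounds for the parameters -/

open TPB

lemma pb_xs (k : ℕ) : PB fun m n => xs k (m + n) :=
  pb_mul (pb_const 2) (pb_pow pb_s (k + 2))

lemma pb_h2 (k : ℕ) : PB fun m n => h2 k (m + n) :=
  pb_add (pb_mul pb_s pb_s) (pb_mul pb_s (pb_add (pb_const 2)
    (pb_mul (pb_const (2 * (k + 1))) (pb_pow pb_s k))))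

lemma pb_N2 (k : ℕ) : PB fun m n => N2 k (m + n) :=
  pb_pow (pb_add (pb_xs k) (pb_const 1)) (2 * k + 1)

lemma pb_E2 (k : ℕ) : PB fun m n => E2 k (m + n) :=
  pb_add (pb_add (pb_h2 k) (pb_mul (pb_const 2) (pb_N2 k))) (pb_const 4)

lemma pb_P2 (k : ℕ) : PB fun m n => P2 k (m + n) :=
  pb_mul (pb_add (pb_N2 k) (pb_const 1)) (pb_E2 k)

lemma pb_Q2 (k : ℕ) : PB fun m n => Q2 k (m + n) :=
  pb_add (pb_add (pb_h2 k) (pb_P2 k)) (pb_const 3)

lemma pb_Z2 (k : ℕ) : PB fun m n => Z2 k (m + n) :=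
  pb_mul (pb_N2 k) (pb_mul (pb_N2 k) (pb_add (pb_mul (pb_const 2) (pb_Q2 k)) (pb_const 1)))

lemma pb_R2 (k : ℕ) : PB fun m n => R2 k m n := pb_add (pb_mul pb_K (pb_Z2 k)) (pb_const 1)

lemma pb_c2 (k : ℕ) : PB fun m n => (cand2 k m n).length := by
  obtain ⟨q, hq⟩ := pb_pow (pb_add (pb_xs k) (pb_const 1)) k
  exact ⟨q, fun m n => (exps_length _ _).le.trans (hq m n)⟩

/-- All sizes are polynomial. -/
theorem PB2 (k : ℕ) : ∃ q : Polynomial ℕ, ∀ m n : ℕ, h2 k (m + n) ≤ q.eval (m + n) ∧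
    N2 k (m + n) ≤ q.eval (m + n) ∧ E2 k (m + n) ≤ q.eval (m + n) ∧
    P2 k (m + n) ≤ q.eval (m + n) ∧ Q2 k (m + n) ≤ q.eval (m + n) ∧
    Z2 k (m + n) ≤ q.eval (m + n) ∧ R2 k m n ≤ q.eval (m + n) ∧
    (P2 k (m + n) + 1) * N2 k (m + n) ≤ q.eval (m + n) ∧
    (cand2 k m n).length ≤ q.eval (m + n) := by
  obtain ⟨q, hq⟩ := pb_add (pb_h2 k) (pb_add (pb_N2 k) (pb_add (pb_E2 k) (pb_add (pb_P2 k)
    (pb_add (pb_Q2 k) (pb_add (pb_Z2 k) (pb_add (pb_R2 k)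
      (pb_add (pb_mul (pb_add (pb_P2 k) (pb_const 1)) (pb_N2 k)) (pb_c2 k))))))))
  refine ⟨q, fun m n => ?_⟩
  have h := hq m n
  simp only at h
  refine ⟨?_, ?_, ?_, ?_, ?_, ?_, ?_, ?_, ?_⟩ <;> omega

/-! ### The vector is fine -/

theorem VOK2 (k : ℕ) : ∃ q : Polynomial ℕ, ∀ (m n : ℕ) (g : Reg → ℝ) (c : List ℕ), Base g →
    VOK q (m + n) g (V2 k m n c) (w2 k m n g c) := by
  obtain ⟨q1, h1⟩ := V2_sz k
  obtain ⟨q2, h2⟩ := V2_len k
  obtain ⟨q3, h3⟩ := PB2 k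
  refine ⟨q1 + q2 + q3, fun m n g c hg => ?_⟩
  obtain ⟨o1, o2, o3, o4⟩ := V2_ord k m n c
  obtain ⟨e1, e2, e3⟩ := V2_eq k m n g c hg
  have he : ∀ S, q1.eval S ≤ (q1 + q2 + q3).eval S ∧ q2.eval S ≤ (q1 + q2 + q3).eval S ∧
      q3.eval S ≤ (q1 + q2 + q3).eval S := by
    intro S
    rw [Polynomial.eval_add, Polynomial.eval_add]
    refine ⟨?_, ?_, ?_⟩ <;> omega
  refine ⟨o1, o2, fun r hr => Or.inr (o3 r hr), (h2 m n c).trans (he _).2.1, ?_, ?_,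
    ⟨vt2 k m n g c, e1, fun I hI => ⟨e2 I hI, fun lam hlam => ?_⟩, e3⟩, fun lam hlam => ?_⟩
  · rw [o4]
    exact (h3 m n).2.1.trans (he _).2.2
  · rw [o4]
    exact Nat.one_le_pow _ _ (Nat.succ_pos _)
  · exact TVOK1.QB_mono (he _).1 ((h1 m n lam g c hlam).1 I hI)
  · obtain ⟨D, hD⟩ := (h1 m n lam g c hlam).2
    rw [o4]
    exact ⟨D, TVOK1.CD_mono (he _).1 hD⟩

/-! ### The monomials -/

theorem w2_zero (k m n : ℕ) (g : Reg → ℝ) (c : List ℕ) (hB : Base g) : w2 k m n g c 0 = 1 := by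
  unfold w2
  rw [TW1.getD_exps_zero]
  unfold mon2
  rw [TW1.getD_rep]
  have e0 : g (breg 0) = 1 := by
    unfold breg
    rw [if_pos rfl]
    exact hB.1
  rw [e0, one_mul]
  refine Finset.prod_eq_one fun t _ => ?_
  rw [TW1.getD_rep]
  unfold slotW
  split_ifs with h
  · exact hB.1
  · exact pow_zero _

theorem w2_all (k m n : ℕ) (g : Reg → ℝ) (c : List ℕ) (e : List ℕ) (he1 : e.length = 2 * k + 1)
    (he2 : ∀ d ∈ e, d ≤ xs k (m + n)) : ∃ l < N2 k (m + n), w2 k m n g c l = mon2 k m n g c e := by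
  have hm := TW1.mem_exps (xs k (m + n)) (2 * k + 1) e he1 he2
  obtain ⟨l, hl, hle⟩ := List.getElem_of_mem hm
  refine ⟨l, ?_, ?_⟩
  · rw [TW1.length_exps] at hl
    exact hl
  · unfold w2
    rw [List.getD_eq_getElem _ _ hl, hle]

end Pool.Agent.H568.LP
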